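import Pool.Agent.GX.PendMany

/-!
Almost all labelled trees have a pendant path with ten vertices.
-/

set_option autoImplicit false

namespace Pool.Agent.HPP

open Pool.Agent.WT.Trees (PF pGraph pGraph_adj pGraph_isTree pGraph_inj exists_parent)
open Pool.Agent.GX (NP Pend pend_many)

/-- the path with ten vertices, rooted at an end -/
def qten : Fin 10 → Fin 10 := fun x => ⟨x.1 - 1, by omega⟩

theorem qten_mem : qten ∈ PF (0 : Fin 10) := by
  have h : ∀ u : Fin 10, qten^[(u : ℕ)] u = 0 := by decide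
  exact ⟨rfl, fun u => ⟨u, h u⟩⟩

/-- the vertices of the pendant path -/
def pathOf {V : Type} (p : V → V) (φ : Fin 10 → V) : ℕ → V
  | 0 => p (φ 0)
  | i + 1 => if h : i < 10 then φ ⟨i, h⟩ else φ 0

theorem pathOf_succ {V : Type} (p : V → V) (φ : Fin 10 → V) {i : ℕ} (h : i < 10) :
    pathOf p φ (i + 1) = φ ⟨i, h⟩ := dif_pos h

/-- a pendant copy of the path with ten vertices is a pendant path -/
theorem pendantPath {V : Type} {r : V} {p : V → V} {φ : Fin 10 → V} (hφ : Pend r p qten φ) :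
    (∀ i j, i ≤ 10 → j ≤ 10 → pathOf p φ i = pathOf p φ j → i = j) ∧
    ∀ i, 0 < i → i ≤ 10 → ∀ v, (pGraph p).Adj (pathOf p φ i) v ↔
      v = pathOf p φ (i - 1) ∨ (i < 10 ∧ v = pathOf p φ (i + 1)) := by
  have hinj : ∀ i j, i ≤ 10 → j ≤ 10 → pathOf p φ i = pathOf p φ j → i = j := by
    intro i j hi hj h
    rcases i with _ | i <;> rcases j with _ | j
    · rfl
    · rw [pathOf_succ p φ (by omega)] at h
      exact absurd ⟨_, h.symm⟩ hφ.top
    · rw [pathOf_succ p φ (by omega)] at h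
      exact absurd ⟨_, h⟩ hφ.top
    · rw [pathOf_succ p φ (by omega), pathOf_succ p φ (by omega)] at h
      have := congrArg Fin.val (hφ.inj h)
      simp only at this
      omega
  have hpar : ∀ i, i < 10 → p (pathOf p φ (i + 1)) = pathOf p φ i := by
    intro i hi
    rw [pathOf_succ p φ hi]
    rcases i with _ | i
    · rfl
    · rw [pathOf_succ p φ (by omega), hφ.par ⟨i + 1, hi⟩ (by
        intro h0
        have := congrArg Fin.val h0
        simp at this)]
      rfl
  refine ⟨hinj, fun i hi0 hi v => ?_⟩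
  obtain ⟨k, rfl⟩ : ∃ k, i = k + 1 := ⟨i - 1, by omega⟩
  rw [pGraph_adj, Nat.add_sub_cancel, hpar k (by omega)]
  constructor
  · rintro ⟨hne, h | h⟩
    · exact Or.inl h.symm
    · obtain ⟨y, rfl⟩ := hφ.closed v ⟨⟨k, by omega⟩, by rw [h, pathOf_succ p φ (by omega)]⟩
      have hy0 : y ≠ 0 := by
        rintro rfl
        exact hφ.top ⟨⟨k, by omega⟩, by rw [h, pathOf_succ p φ (by omega)]⟩
      rw [hφ.par y hy0, pathOf_succ p φ (by omega)] at h
      have h1 := congrArg Fin.val (hφ.inj h)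
      have h2 : (y : ℕ) ≠ 0 := fun h0 => hy0 (Fin.ext h0)
      have h3 : (y : ℕ) - 1 = k := h1
      have h4 : (y : ℕ) = k + 1 := by omega
      refine Or.inr ⟨by have := y.2; omega, ?_⟩
      rw [pathOf_succ p φ (i := k + 1) (by have := y.2; omega)]
      exact congrArg φ (Fin.ext h4)
  · rintro (rfl | ⟨h, rfl⟩)
    · refine ⟨fun h0 => ?_, Or.inl rfl⟩
      have := hinj _ _ (by omega) (by omega) h0
      omega
    · refine ⟨fun h0 => ?_, Or.inr (hpar (k + 1) (by omega))⟩
      have := hinj _ _ (by omega) (by omega) h0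
      omega

/-- almost all labelled trees have a pendant path with ten vertices -/
theorem almost (ε : ℝ) (hε : 0 < ε) : ∃ N : ℕ, ∀ n, N ≤ n →
    (1 - ε) * ({T : SimpleGraph (Fin n) | T.IsTree}.ncard : ℝ) ≤
      ({T : SimpleGraph (Fin n) | T.IsTree ∧ ∃ a : ℕ → Fin n,
        (∀ i j, i ≤ 10 → j ≤ 10 → a i = a j → i = j) ∧
        ∀ i, 0 < i → i ≤ 10 → ∀ v, T.Adj (a i) v ↔
          v = a (i - 1) ∨ (i < 10 ∧ v = a (i + 1))}.ncard : ℝ) := by
  classical
  obtain ⟨n1, h1⟩ := pend_many qten qten_mem ε hε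
  refine ⟨max 1 n1, fun n hn => ?_⟩
  have hpos : 0 < n := lt_of_lt_of_le one_pos (le_trans (le_max_left _ _) hn)
  have hcard : Fintype.card (Fin n) = n := Fintype.card_fin n
  let r : Fin n := ⟨0, hpos⟩
  have e1 := h1 (Fin n) r (by rw [hcard]; exact le_trans (le_max_right _ _) hn)
  set B : Set (Fin n → Fin n) := {p | p ∈ PF r ∧
    (NP r p qten : ℝ) < Real.exp (-((10 : ℕ) : ℝ)) / 2 * (Fintype.card (Fin n) : ℝ)} with hB
  set P : SimpleGraph (Fin n) → Prop := fun T => ∃ a : ℕ → Fin n,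
        (∀ i j, i ≤ 10 → j ≤ 10 → a i = a j → i = j) ∧
        ∀ i, 0 < i → i ≤ 10 → ∀ v, T.Adj (a i) v ↔
          v = a (i - 1) ∨ (i < 10 ∧ v = a (i + 1)) with hP
  have hsub : {T : SimpleGraph (Fin n) | T.IsTree ∧ ¬ P T} ⊆ pGraph '' B := by
    rintro G ⟨hG, hGr⟩
    obtain ⟨p, hp, rfl, -⟩ := exists_parent G hG r
    refine ⟨p, ?_, rfl⟩
    by_contra hc3
    apply hGr
    by_contra hc
    apply hc3
    refine ⟨hp, ?_⟩
    have hNP : NP r p qten = 0 := by
      unfold NP
      rw [Set.ncard_eq_zero (Set.toFinite _)]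
      ext φ
      simp only [Set.mem_setOf_eq, Set.mem_empty_iff_false, iff_false]
      exact fun hφ => hc ⟨pathOf p φ, pendantPath hφ⟩
    rw [hNP, hcard]
    have hn' : (0 : ℝ) < (n : ℝ) := by exact_mod_cast hpos
    have := Real.exp_pos (-((10 : ℕ) : ℝ))
    rw [Nat.cast_zero]
    positivity
  have hbad : ({T : SimpleGraph (Fin n) | T.IsTree ∧ ¬ P T}.ncard : ℝ) ≤ (B.ncard : ℝ) := by
    exact_mod_cast (Set.ncard_le_ncard hsub (Set.toFinite _)).trans
      (Set.ncard_image_le (Set.toFinite _))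
  have hall : ((PF r).ncard : ℝ) ≤ ({T : SimpleGraph (Fin n) | T.IsTree}.ncard : ℝ) := by
    have i1 : (PF r).ncard ≤ {T : SimpleGraph (Fin n) | T.IsTree}.ncard := by
      refine Set.ncard_le_ncard_of_injOn pGraph ?_ ?_ (Set.toFinite _)
      · intro p hp
        exact pGraph_isTree hp
      · intro p hp q hq hpq
        exact pGraph_inj hp hq hpq
    exact_mod_cast i1
  have hcov : ({T : SimpleGraph (Fin n) | T.IsTree}.ncard : ℝ) ≤
      ({T : SimpleGraph (Fin n) | T.IsTree ∧ P T}.ncard : ℝ) +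
        ({T : SimpleGraph (Fin n) | T.IsTree ∧ ¬ P T}.ncard : ℝ) := by
    have i1 : {T : SimpleGraph (Fin n) | T.IsTree} ⊆
        {T : SimpleGraph (Fin n) | T.IsTree ∧ P T} ∪ {T : SimpleGraph (Fin n) | T.IsTree ∧ ¬ P T} := by
      intro T hT
      by_cases h : P T
      · exact Or.inl ⟨hT, h⟩
      · exact Or.inr ⟨hT, h⟩
    exact_mod_cast (Set.ncard_le_ncard i1 (Set.toFinite _)).trans (Set.ncard_union_le _ _)
  have i6 : ε * ((PF r).ncard : ℝ) ≤ ε * ({T : SimpleGraph (Fin n) | T.IsTree}.ncard : ℝ) :=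
    mul_le_mul_of_nonneg_left hall hε.le
  linarith

end Pool.Agent.HPP
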