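import Mathlib

/-!
A large tree with few leaves contains a path of `16` vertices whose `14` inner vertices have degree two.
-/

set_option autoImplicit false

namespace Pool.Agent.HPP

open Finset Classical

/-- degrees in a tree with at most `k` leaves -/
lemma bare_degrees {n k : ℕ} (hn : 2 ≤ n) (T : SimpleGraph (Fin n)) (hT : T.IsTree)
    (hk : (univ.filter fun v => T.degree v = 1).card ≤ k) :
    (univ.filter fun v => T.degree v ≠ 2).card ≤ 2 * k ∧ ∀ u, T.degree u ≤ k := by
  have : Nontrivial (Fin n) := Fin.nontrivial_iff_two_le.mpr hn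
  have hpos : ∀ v, 1 ≤ T.degree v := fun v =>
    le_trans (hT.connected.preconnected.minDegree_pos_of_nontrivial) (T.minDegree_le_degree v)
  have hsum : ∑ v, T.degree v + 2 = 2 * n := by
    have h1 := T.sum_degrees_eq_twice_card_edges
    have h2 := hT.card_edgeFinset
    rw [Fintype.card_fin] at h2
    omega
  have hL : (univ.filter fun v => T.degree v = 1).card = ∑ v, (if T.degree v = 1 then 1 else 0) := by
    rw [Finset.card_filter]
  constructor
  · have hB : (univ.filter fun v => T.degree v ≠ 2).card = ∑ v, (if T.degree v ≠ 2 then 1 else 0) := by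
      rw [Finset.card_filter]
    have h3 : ∑ v : Fin n, (2 + (if T.degree v ≠ 2 then 1 else 0)) ≤
        ∑ v, (T.degree v + 2 * (if T.degree v = 1 then 1 else 0)) := by
      apply Finset.sum_le_sum
      intro v _
      have := hpos v
      split_ifs <;> omega
    rw [Finset.sum_add_distrib, Finset.sum_add_distrib, ← Finset.mul_sum, ← hL, ← hB] at h3
    simp only [Finset.sum_const, Finset.card_univ, Fintype.card_fin, smul_eq_mul] at h3
    omega
  · intro u
    have h3 : ∑ v : Fin n, (2 + (if v = u then T.degree u else 0)) ≤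
        ∑ v, (T.degree v + ((if T.degree v = 1 then 1 else 0) + (if v = u then 2 else 0))) := by
      apply Finset.sum_le_sum
      intro v _
      have := hpos v
      by_cases h : v = u
      · subst h
        simp only [if_true]
        split_ifs <;> omega
      · simp only [if_neg h]
        split_ifs <;> omega
    rw [Finset.sum_add_distrib, Finset.sum_add_distrib, Finset.sum_add_distrib, ← hL] at h3
    simp only [Finset.sum_const, Finset.card_univ, Fintype.card_fin, smul_eq_mul, Finset.sum_ite_eq',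
      Finset.mem_univ, if_true] at h3
    omega

/-- the sets of the vertices near to a vertex whose degree is not two -/
noncomputable def nearBad {n : ℕ} (T : SimpleGraph (Fin n)) : ℕ → Finset (Fin n)
  | 0 => univ.filter fun v => T.degree v ≠ 2
  | i + 1 => nearBad T i ∪ (nearBad T i).biUnion fun v => T.neighborFinset v

lemma nearBad_card {n k : ℕ} (T : SimpleGraph (Fin n)) (h0 : (univ.filter fun v => T.degree v ≠ 2).card ≤ 2 * k)
    (h1 : ∀ u, T.degree u ≤ k) (i : ℕ) : (nearBad T i).card ≤ 2 * k * (k + 1) ^ i := by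
  induction i with
  | zero => simpa [nearBad] using h0
  | succ i ih =>
    have h2 : ((nearBad T i).biUnion fun v => T.neighborFinset v).card ≤ (nearBad T i).card * k := by
      apply Finset.card_biUnion_le_card_mul
      intro v _
      exact h1 v
    have h3 : (nearBad T (i + 1)).card ≤ (nearBad T i).card + (nearBad T i).card * k := by
      have h4 : nearBad T (i + 1) = nearBad T i ∪ (nearBad T i).biUnion fun v => T.neighborFinset v := rfl
      rw [h4]
      exact (Finset.card_union_le _ _).trans (Nat.add_le_add_left h2 _)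
    calc (nearBad T (i + 1)).card ≤ (nearBad T i).card * (k + 1) := by rw [mul_add, mul_one]; omega
      _ ≤ 2 * k * (k + 1) ^ i * (k + 1) := Nat.mul_le_mul_right _ ih
      _ = 2 * k * (k + 1) ^ (i + 1) := by ring

lemma nearBad_step {n : ℕ} (T : SimpleGraph (Fin n)) {i : ℕ} {v : Fin n} (h : v ∉ nearBad T (i + 1)) :
    v ∉ nearBad T i ∧ ∀ w, T.Adj v w → w ∉ nearBad T i := by
  unfold nearBad at h
  rw [Finset.mem_union, not_or] at h
  refine ⟨h.1, fun w hw hmem => h.2 ?_⟩
  rw [Finset.mem_biUnion]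
  exact ⟨w, hmem, by rw [SimpleGraph.mem_neighborFinset]; exact hw.symm⟩

lemma nearBad_deg {n : ℕ} (T : SimpleGraph (Fin n)) (i : ℕ) : ∀ {v : Fin n}, v ∉ nearBad T i → T.degree v = 2 := by
  induction i with
  | zero =>
    intro v h
    by_contra hne
    exact h (by unfold nearBad; exact Finset.mem_filter.mpr ⟨Finset.mem_univ _, hne⟩)
  | succ i ih => exact fun h => ih (nearBad_step T h).1

/-- the other neighbour of `y` -/
noncomputable def nxt {V : Type} (T : SimpleGraph V) (x y : V) : V :=
  if h : ∃ z, T.Adj y z ∧ z ≠ x then h.choose else y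

/-- the walk without turning back -/
noncomputable def bsq {V : Type} (T : SimpleGraph V) (v w : V) : ℕ → V × V
  | 0 => (v, w)
  | i + 1 => ((bsq T v w i).2, nxt T (bsq T v w i).1 (bsq T v w i).2)

lemma bare_walk {V : Type} {T : SimpleGraph V} (a : ℕ → V) (m : ℕ) (h : ∀ i < m, T.Adj (a i) (a (i + 1)))
    (hne : ∀ i, i + 2 ≤ m → a (i + 2) ≠ a i) :
    ∃ p : T.Walk (a m) (a 0), p.support = (List.range (m + 1)).reverse.map a ∧
      List.IsChain (· ≠ ·) p.edges ∧ ∀ e ∈ p.edges.head?, ∃ j, m = j + 1 ∧ e = s(a (j + 1), a j) := by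
  induction m with
  | zero => exact ⟨SimpleGraph.Walk.nil, by simp, by simp, by simp⟩
  | succ m ih =>
    obtain ⟨p, h1, h2, h3⟩ := ih (fun i hi => h i (by omega)) (fun i hi => hne i (by omega))
    refine ⟨SimpleGraph.Walk.cons (h m (by omega)).symm p, ?_, ?_, ?_⟩
    · rw [SimpleGraph.Walk.support_cons, h1, List.range_succ (n := m + 1), List.reverse_append]
      simp
    · rw [SimpleGraph.Walk.edges_cons, List.isChain_cons]
      refine ⟨fun e he => ?_, h2⟩
      obtain ⟨j, rfl, rfl⟩ := h3 e he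
      intro heq
      rw [Sym2.eq_iff] at heq
      rcases heq with ⟨h4, -⟩ | ⟨h4, -⟩
      · have h5 := h (j + 1) (by omega)
        rw [h4] at h5
        exact h5.ne rfl
      · exact hne j (by omega) h4
    · intro e he
      rw [SimpleGraph.Walk.edges_cons] at he
      refine ⟨m, rfl, ?_⟩
      simpa using he.symm

lemma bare_inj {V : Type} {T : SimpleGraph V} (hT : T.IsAcyclic) (a : ℕ → V) (m : ℕ)
    (h : ∀ i < m, T.Adj (a i) (a (i + 1))) (hne : ∀ i, i + 2 ≤ m → a (i + 2) ≠ a i) {i j : ℕ}
    (hi : i ≤ m) (hj : j ≤ m) (hij : a i = a j) : i = j := by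
  obtain ⟨p, h1, h2, -⟩ := bare_walk a m h hne
  have h3 := (hT.isPath_iff_isChain p).mpr h2
  have h4 := h3.support_nodup
  rw [h1] at h4
  exact List.inj_on_of_nodup_map h4 (by simp; omega) (by simp; omega) hij

lemma bare_two {n : ℕ} (T : SimpleGraph (Fin n)) {x y : Fin n} (hxy : T.Adj x y) (hy : T.degree y = 2) :
    T.Adj y (nxt T x y) ∧ nxt T x y ≠ x ∧ ∀ v, T.Adj y v ↔ v = x ∨ v = nxt T x y := by
  have h2 : (T.neighborFinset y).card = 2 := hy
  have hx : x ∈ T.neighborFinset y := by rw [SimpleGraph.mem_neighborFinset]; exact hxy.symm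
  obtain ⟨z, hz, hzx⟩ := Finset.exists_mem_ne (by omega : 1 < (T.neighborFinset y).card) x
  have hex : ∃ z, T.Adj y z ∧ z ≠ x := ⟨z, by rwa [SimpleGraph.mem_neighborFinset] at hz, hzx⟩
  have hn : nxt T x y = hex.choose := by unfold nxt; rw [dif_pos hex]
  obtain ⟨h3, h4⟩ := hex.choose_spec
  rw [← hn] at h3 h4
  refine ⟨h3, h4, fun v => ⟨fun hv => ?_, ?_⟩⟩
  · by_contra hcon
    rw [not_or] at hcon
    have h5 : ({x, nxt T x y, v} : Finset (Fin n)) ⊆ T.neighborFinset y := by
      intro w hw
      simp only [Finset.mem_insert, Finset.mem_singleton] at hw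
      rw [SimpleGraph.mem_neighborFinset]
      rcases hw with rfl | rfl | rfl
      · exact hxy.symm
      · exact h3
      · exact hv
    have h6 := Finset.card_le_card h5
    rw [h2, Finset.card_insert_of_notMem, Finset.card_pair] at h6
    · omega
    · exact fun h => hcon.2 h.symm
    · simp only [Finset.mem_insert, Finset.mem_singleton, not_or]
      exact ⟨fun h => h4 h.symm, fun h => hcon.1 h.symm⟩
  · rintro (rfl | rfl)
    · exact hxy.symm
    · exact h3

/-- **A tree with at most `k` leaves and many vertices has a bare path with `14` inner vertices.** -/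
theorem exists_bare (k : ℕ) : ∃ C : ℕ, ∀ (n : ℕ) (T : SimpleGraph (Fin n)), C ≤ n → T.IsTree →
    {v | {w | T.Adj v w}.ncard = 1}.ncard ≤ k →
    ∃ a : ℕ → Fin n, (∀ i j, i ≤ 15 → j ≤ 15 → a i = a j → i = j) ∧
      ∀ i, 0 < i → i < 15 → ∀ v, T.Adj (a i) v ↔ v = a (i - 1) ∨ v = a (i + 1) := by
  refine ⟨2 * k * (k + 1) ^ 15 + 2, fun n T hn hT hk => ?_⟩
  have hdeg : ∀ v, {w | T.Adj v w}.ncard = T.degree v := by
    intro v
    rw [show {w | T.Adj v w} = (T.neighborFinset v : Set (Fin n)) by
      ext w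
      simp, Set.ncard_coe_finset]
    rfl
  have hk' : (univ.filter fun v => T.degree v = 1).card ≤ k := by
    refine le_trans (le_of_eq ?_) hk
    rw [← Set.ncard_coe_finset]
    congr 1
    ext v
    simp [hdeg]
  obtain ⟨h1, h2⟩ := bare_degrees (by omega) T hT hk'
  have h3 := nearBad_card T h1 h2 15
  obtain ⟨v, hv⟩ : ∃ v, v ∉ nearBad T 15 := by
    by_contra hcon
    push Not at hcon
    have h4 : nearBad T 15 = univ := Finset.eq_univ_iff_forall.mpr hcon
    rw [h4, Finset.card_univ, Fintype.card_fin] at h3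
    omega
  have hdv : T.degree v = 2 := nearBad_deg T 15 hv
  obtain ⟨w, hw⟩ : ∃ w, T.Adj v w := by
    have h5 : (T.neighborFinset v).card = 2 := hdv
    obtain ⟨w, hw⟩ : (T.neighborFinset v).Nonempty := Finset.card_pos.mp (by omega)
    exact ⟨w, by rwa [SimpleGraph.mem_neighborFinset] at hw⟩
  obtain ⟨a, ha⟩ : ∃ a : ℕ → Fin n, ∀ i, a i = (bsq T v w i).1 := ⟨_, fun _ => rfl⟩
  have ha1 : ∀ i, (bsq T v w i).2 = a (i + 1) := fun i => by rw [ha]; rfl
  have ha2 : ∀ i, a (i + 2) = nxt T (a i) (a (i + 1)) := by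
    intro i
    rw [← ha1 (i + 1), ← ha1 i, ha i]
    rfl
  have hP : ∀ i, i ≤ 14 → T.Adj (a i) (a (i + 1)) ∧ a (i + 1) ∉ nearBad T (14 - i) := by
    intro i
    induction i with
    | zero =>
      intro _
      rw [← ha1 0, ha 0]
      exact ⟨hw, (nearBad_step T (i := 14) hv).2 w hw⟩
    | succ i ih =>
      intro hi
      obtain ⟨h5, h6⟩ := ih (by omega)
      have h7 := nearBad_deg T _ h6
      obtain ⟨h8, -, -⟩ := bare_two T h5 h7
      rw [← ha2 i] at h8
      refine ⟨h8, ?_⟩
      rw [show 14 - i = (14 - (i + 1)) + 1 by omega] at h6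
      exact (nearBad_step T h6).2 _ h8
  have hQ : ∀ i, i ≤ 14 → a (i + 2) ≠ a i ∧ ∀ u, T.Adj (a (i + 1)) u ↔ u = a i ∨ u = a (i + 2) := by
    intro i hi
    obtain ⟨h5, h6⟩ := hP i hi
    have h7 := nearBad_deg T _ h6
    obtain ⟨-, h8, h9⟩ := bare_two T h5 h7
    rw [← ha2 i] at h8 h9
    exact ⟨h8, h9⟩
  refine ⟨a, fun i j hi hj hij => ?_, fun i hi0 hi u => ?_⟩
  · exact bare_inj hT.isAcyclic a 15 (fun i hi => (hP i (by omega)).1) (fun i hi => (hQ i (by omega)).1) hi hj hij
  · obtain ⟨j, rfl⟩ : ∃ j, i = j + 1 := ⟨i - 1, by omega⟩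
    have := (hQ j (by omega)).2 u
    simpa using this

end Pool.Agent.HPP
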