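import Pool.Agent.HPP.Bare

/-!
The explicit form of `exists_bare`.
-/

set_option autoImplicit false

namespace Pool.Agent.HPP

open Finset Classical

theorem exists_bare_explicit {k n : ℕ} (hn : 2 * k * (k + 1) ^ 15 + 2 ≤ n)
    (T : SimpleGraph (Fin n)) (hT : T.IsTree)
    (hk : {v | {w | T.Adj v w}.ncard = 1}.ncard ≤ k) :
    ∃ a : ℕ → Fin n, (∀ i j, i ≤ 15 → j ≤ 15 → a i = a j → i = j) ∧
      ∀ i, 0 < i → i < 15 → ∀ v, T.Adj (a i) v ↔ v = a (i - 1) ∨ v = a (i + 1) := by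
  have hdeg : ∀ v, {w | T.Adj v w}.ncard = T.degree v := by
    intro v
    rw [show {w | T.Adj v w} = (T.neighborFinset v : Set (Fin n)) by
      ext w
      simp, Set.ncard_coe_finset]
    rfl
  have hk' : (univ.filter fun v => T.degree v = 1).card ≤ k := by
    refine le_trans (le_of_eq ?_) hk
    rw [← Set.ncard_coe_finset]
    congr 1
    ext v
    simp [hdeg]
  obtain ⟨h1, h2⟩ := bare_degrees (by omega) T hT hk'
  have h3 := nearBad_card T h1 h2 15
  obtain ⟨v, hv⟩ : ∃ v, v ∉ nearBad T 15 := by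
    by_contra hcon
    push Not at hcon
    have h4 : nearBad T 15 = univ := Finset.eq_univ_iff_forall.mpr hcon
    rw [h4, Finset.card_univ, Fintype.card_fin] at h3
    omega
  have hdv : T.degree v = 2 := nearBad_deg T 15 hv
  obtain ⟨w, hw⟩ : ∃ w, T.Adj v w := by
    have h5 : (T.neighborFinset v).card = 2 := hdv
    obtain ⟨w, hw⟩ : (T.neighborFinset v).Nonempty := Finset.card_pos.mp (by omega)
    exact ⟨w, by rwa [SimpleGraph.mem_neighborFinset] at hw⟩
  obtain ⟨a, ha⟩ : ∃ a : ℕ → Fin n, ∀ i, a i = (bsq T v w i).1 := ⟨_, fun _ => rfl⟩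
  have ha1 : ∀ i, (bsq T v w i).2 = a (i + 1) := fun i => by rw [ha]; rfl
  have ha2 : ∀ i, a (i + 2) = nxt T (a i) (a (i + 1)) := by
    intro i
    rw [← ha1 (i + 1), ← ha1 i, ha i]
    rfl
  have hP : ∀ i, i ≤ 14 → T.Adj (a i) (a (i + 1)) ∧ a (i + 1) ∉ nearBad T (14 - i) := by
    intro i
    induction i with
    | zero =>
      intro _
      rw [← ha1 0, ha 0]
      exact ⟨hw, (nearBad_step T (i := 14) hv).2 w hw⟩
    | succ i ih =>
      intro hi
      obtain ⟨h5, h6⟩ := ih (by omega)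
      have h7 := nearBad_deg T _ h6
      obtain ⟨h8, -, -⟩ := bare_two T h5 h7
      rw [← ha2 i] at h8
      refine ⟨h8, ?_⟩
      rw [show 14 - i = (14 - (i + 1)) + 1 by omega] at h6
      exact (nearBad_step T h6).2 _ h8
  have hQ : ∀ i, i ≤ 14 → a (i + 2) ≠ a i ∧ ∀ u, T.Adj (a (i + 1)) u ↔ u = a i ∨ u = a (i + 2) := by
    intro i hi
    obtain ⟨h5, h6⟩ := hP i hi
    have h7 := nearBad_deg T _ h6
    obtain ⟨-, h8, h9⟩ := bare_two T h5 h7
    rw [← ha2 i] at h8 h9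
    exact ⟨h8, h9⟩
  refine ⟨a, fun i j hi hj hij => ?_, fun i hi0 hi u => ?_⟩
  · exact bare_inj hT.isAcyclic a 15 (fun i hi => (hP i (by omega)).1) (fun i hi => (hQ i (by omega)).1) hi hj hij
  · obtain ⟨j, rfl⟩ : ∃ j, i = j + 1 := ⟨i - 1, by omega⟩
    have := (hQ j (by omega)).2 u
    simpa using this

end Pool.Agent.HPP
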