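import Pool.Agent.HPP.Fin2

/-!
Every finite graph with a path `a 0, …, a N`, `N ≥ 15`, whose inner vertices have degree two and
one of whose edges is a bridge, has a finite induced-saturated graph.
-/

set_option autoImplicit false

namespace Pool.Agent.HPP

open Finset IndSat

theorem host3 {V : Type} [Finite V] {H : SimpleGraph V} {a : ℕ → V} {N : ℕ} (hN : 15 ≤ N)
    (hinj : ∀ i j, i ≤ N → j ≤ N → a i = a j → i = j)
    (hadj : ∀ i, 0 < i → i < N → ∀ v, H.Adj (a i) v ↔ v = a (i - 1) ∨ v = a (i + 1))
    (hbr : H.IsBridge s(a 10, a 11)) :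
    ∃ n, Sat H (Gr n) ∧ Nat.card V ≤ Nat.card (Pt n) := by
  classical
  set K := H.deleteEdges {s(a 10, a 11)} with hKdef
  have hbr2 : ¬ K.Reachable (a 10) (a 11) := SimpleGraph.isBridge_iff.1 hbr
  have hbr1 : H.Adj (a 10) (a 11) := (hadj 10 (by omega) (by omega) _).2 (Or.inr rfl)
  have hne : ∀ i j, i ≤ N → j ≤ N → i ≠ j → a i ≠ a j := fun i j h1 h2 h3 h4 =>
    h3 (hinj i j h1 h2 h4)
  have hKadj : ∀ x y, K.Adj x y ↔ H.Adj x y ∧ s(x, y) ≠ s(a 10, a 11) := by
    intro x y
    rw [hKdef, SimpleGraph.deleteEdges_adj, Set.mem_singleton_iff]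
  have hKi : ∀ i, 0 < i → i < N → i ≠ 10 → i ≠ 11 → ∀ v,
      K.Adj (a i) v ↔ v = a (i - 1) ∨ v = a (i + 1) := by
    intro i h1 h2 h3 h4 v
    rw [hKadj, hadj i h1 h2]
    refine ⟨fun h5 => h5.1, fun h5 => ⟨h5, fun h6 => ?_⟩⟩
    rcases Sym2.eq_iff.1 h6 with ⟨h7, -⟩ | ⟨h7, -⟩
    · exact hne i 10 (by omega) (by omega) h3 h7
    · exact hne i 11 (by omega) (by omega) h4 h7
  have hK10 : ∀ v, K.Adj (a 10) v ↔ v = a 9 := by
    intro v
    rw [hKadj, hadj 10 (by omega) (by omega)]
    constructor
    · rintro ⟨h5 | h5, h6⟩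
      · exact h5
      · exact absurd (by rw [h5]) h6
    · intro h5
      refine ⟨Or.inl h5, fun h6 => ?_⟩
      rcases Sym2.eq_iff.1 h6 with ⟨-, h7⟩ | ⟨h7, -⟩
      · exact hne 9 11 (by omega) (by omega) (by omega) (h5 ▸ h7)
      · exact hne 10 11 (by omega) (by omega) (by omega) h7
  have hK11 : ∀ v, K.Adj (a 11) v ↔ v = a 12 := by
    intro v
    rw [hKadj, hadj 11 (by omega) (by omega)]
    constructor
    · rintro ⟨h5 | h5, h6⟩
      · exact absurd (by rw [h5, Sym2.eq_swap]) h6
      · exact h5
    · intro h5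
      refine ⟨Or.inr h5, fun h6 => ?_⟩
      rcases Sym2.eq_iff.1 h6 with ⟨h7, -⟩ | ⟨-, h7⟩
      · exact hne 11 10 (by omega) (by omega) (by omega) h7
      · exact hne 12 10 (by omega) (by omega) (by omega) (h5 ▸ h7)
  obtain ⟨l, rfl⟩ : ∃ l, N = l + 11 := ⟨N - 11, by omega⟩
  let S : Set V := {v | K.Reachable (a 10) v}
  let b : ℕ → V := fun j => a (l + 11 - j)
  have hb : ∀ j, b j = a (l + 11 - j) := fun j => rfl
  have hbl : b l = a 11 := by rw [hb]; congr 1; omega
  have hTP : TwoPaths K S a b 10 l := by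
    refine ⟨⟨fun i j hi hj => hinj i j (by omega) (by omega), ?_⟩,
      ⟨fun i j hi hj h0 => ?_, ?_⟩, ?_, ?_, ?_⟩
    · intro i hi v
      rcases Nat.lt_or_ge i 9 with h1 | h1
      · rw [hKi (i + 1) (by omega) (by omega) (by omega) (by omega)]
        refine or_congr (by rw [Nat.add_sub_cancel]) ⟨fun h2 => ⟨by omega, h2⟩, fun h2 => h2.2⟩
      · obtain rfl : i = 9 := by omega
        rw [show 9 + 1 = 10 from rfl, hK10]
        exact ⟨Or.inl, fun h2 => h2.elim id fun h3 => absurd h3.1 (by omega)⟩
    · have := hinj (l + 11 - i) (l + 11 - j) (by omega) (by omega) h0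
      omega
    · intro j hj v
      rw [hb, hb, hb]
      rcases Nat.lt_or_ge (j + 1) l with h1 | h1
      · rw [hKi (l + 11 - (j + 1)) (by omega) (by omega) (by omega) (by omega),
          show l + 11 - (j + 1) - 1 = l + 11 - (j + 2) by omega,
          show l + 11 - (j + 1) + 1 = l + 11 - j by omega]
        exact ⟨fun h2 => h2.elim (fun h3 => Or.inr ⟨by omega, h3⟩) Or.inl,
          fun h2 => h2.elim Or.inr fun h3 => Or.inl h3.2⟩
      · obtain rfl : j + 1 = l := by omega
        rw [show j + 1 + 11 - (j + 1) = 11 by omega, hK11, show j + 1 + 11 - j = 12 by omega]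
        exact ⟨Or.inl, fun h2 => h2.elim id fun h3 => absurd h3.1 (by omega)⟩
    · -- the vertices `a i`, `i ≤ 10`, are reachable from `a 10`
      have h1 : ∀ i, i ≤ 10 → K.Reachable (a 10) (a (10 - i)) := by
        intro i
        induction i with
        | zero => exact fun _ => SimpleGraph.Reachable.refl _
        | succ i ih =>
          intro hi
          refine (ih (by omega)).trans (SimpleGraph.Adj.reachable ?_)
          rcases Nat.eq_zero_or_pos i with h2 | h2
          · subst h2
            exact (hK10 _).2 rfl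
          · rw [hKi (10 - i) (by omega) (by omega) (by omega) (by omega)]
            left
            congr 1
      intro i hi
      have h2 := h1 (10 - i) (by omega)
      rw [show 10 - (10 - i) = i by omega] at h2
      exact h2
    · have h1 : ∀ i, i ≤ l → K.Reachable (a 11) (a (11 + i)) := by
        intro i
        induction i with
        | zero => exact fun _ => SimpleGraph.Reachable.refl _
        | succ i ih =>
          intro hi
          refine (ih (by omega)).trans (SimpleGraph.Adj.reachable ?_)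
          rcases Nat.eq_zero_or_pos i with h2 | h2
          · subst h2
            exact (hK11 _).2 rfl
          · rw [hKi (11 + i) (by omega) (by omega) (by omega) (by omega)]
            right
            congr 1
      intro i hi h2
      have h3 := h1 (l - i) (by omega)
      rw [show 11 + (l - i) = l + 11 - i by omega] at h3
      exact hbr2 (SimpleGraph.Reachable.trans h2 h3.symm)
    · intro x hx y hy hxy
      exact hy (SimpleGraph.Reachable.trans hx hxy.reachable)
  have hG : K ⊔ SimpleGraph.edge (a 10) (b l) = H := by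
    ext x y
    rw [hbl, SimpleGraph.sup_adj, SimpleGraph.edge_adj, hKadj]
    constructor
    · rintro (h1 | ⟨⟨rfl, rfl⟩ | ⟨rfl, rfl⟩, -⟩)
      · exact h1.1
      · exact hbr1
      · exact hbr1.symm
    · intro h1
      by_cases h2 : s(x, y) = s(a 10, a 11)
      · exact Or.inr ⟨Sym2.eq_iff.1 h2, h1.ne⟩
      · exact Or.inl ⟨h1, h2⟩
  have := host2 hTP le_rfl (by omega)
  rwa [hG] at this

end Pool.Agent.HPP
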