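import Mathlib

/-!
Induced saturation is invariant under taking complements.
-/

set_option autoImplicit false

namespace Pool.Agent.HPP

/-- If `G` is `H`-induced-saturated, then `Gᶜ` is `Hᶜ`-induced-saturated. -/
theorem sat_compl {U V : Type} {H : SimpleGraph U} {G : SimpleGraph V}
    (h : IsEmpty (H ↪g G) ∧ ∀ G' : SimpleGraph V,
      (∃ e : Sym2 V, ∀ f : Sym2 V, ((f ∈ G.edgeSet ↔ f ∈ G'.edgeSet) ↔ f ≠ e)) →
      Nonempty (H ↪g G')) :
    IsEmpty (Hᶜ ↪g Gᶜ) ∧ ∀ G' : SimpleGraph V,
      (∃ e : Sym2 V, ∀ f : Sym2 V, ((f ∈ Gᶜ.edgeSet ↔ f ∈ G'.edgeSet) ↔ f ≠ e)) →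
      Nonempty (Hᶜ ↪g G') := by
  refine ⟨⟨fun f => h.1.false ?_⟩, fun G' hG' => ?_⟩
  · refine ⟨f.toEmbedding, fun {a b} => ?_⟩
    have h1 := f.map_rel_iff (a := a) (b := b)
    by_cases hab : a = b
    · subst hab; simp
    · have hfab : f a ≠ f b := fun h0 => hab (f.injective h0)
      simp only [SimpleGraph.compl_adj] at h1
      constructor
      · intro h2
        by_contra h3
        exact (h1.2 ⟨hab, h3⟩).2 h2
      · intro h2
        by_contra h3
        exact (h1.1 ⟨hfab, h3⟩).2 h2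
  · obtain ⟨e, he⟩ := hG'
    obtain ⟨g⟩ := h.2 G'ᶜ ⟨e, fun f => by
      rw [← he f]
      induction f using Sym2.ind with
      | _ a b =>
        simp only [SimpleGraph.mem_edgeSet, SimpleGraph.compl_adj]
        by_cases hab : a = b
        · subst hab; simp
        · simp only [ne_eq, hab, not_false_eq_true, true_and]
          tauto⟩
    refine ⟨⟨g.toEmbedding, fun {a b} => ?_⟩⟩
    have h1 := g.map_rel_iff (a := a) (b := b)
    by_cases hab : a = b
    · subst hab; simp
    · have hgab : g a ≠ g b := fun h0 => hab (g.injective h0)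
      simp only [SimpleGraph.compl_adj] at h1 ⊢
      constructor
      · intro h2
        exact ⟨hab, fun h3 => (h1.2 h3).2 h2⟩
      · intro h2
        by_contra h3
        exact h2.2 (h1.1 ⟨hgab, h3⟩)

end Pool.Agent.HPP
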