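import Pool.Agent.HPP.Tables

/-!
The end of a pendant path has no twin.
-/

set_option autoImplicit false

namespace Pool.Agent.HPP

theorem end_adj {V : Type} {K : SimpleGraph V} {a : ℕ → V} {l : ℕ} (hp : PPath K a l)
    (hl : 1 ≤ l) : K.Adj (a l) (a (l - 1)) :=
  (hp.adj_iff hl le_rfl (by omega)).2 (by omega)

theorem end_no_twin {V : Type} {K : SimpleGraph V} {a : ℕ → V} {l : ℕ} (hp : PPath K a l)
    (hl : 3 ≤ l) (w : V) (hw : w ≠ a l) :
    ∃ i, i < l ∧ a i ≠ w ∧ ¬ (K.Adj (a l) (a i) ↔ K.Adj w (a i)) := by
  by_cases h1 : w = a (l - 1)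
  · refine ⟨l - 2, by omega, ?_, ?_⟩
    · intro h2
      have := hp.inj _ _ (by omega) (by omega) (h2.trans h1)
      omega
    · rw [h1, hp.adj_iff (by omega) le_rfl (by omega), hp.adj_iff (by omega) (by omega) (by omega)]
      omega
  · by_cases h2 : K.Adj w (a (l - 1))
    · have h3 : w = a (l - 2) := by
        have h4 := (hp.adj (l - 2) (by omega) w).1 (by
          have e1 : l - 2 + 1 = l - 1 := by omega
          rw [e1]
          exact h2.symm)
        rcases h4 with h5 | ⟨-, h5⟩
        · exact h5
        · have e2 : l - 2 + 2 = l := by omega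
          rw [e2] at h5
          exact absurd h5 hw
      refine ⟨l - 3, by omega, ?_, ?_⟩
      · intro h4
        have := hp.inj _ _ (by omega) (by omega) (h4.trans h3)
        omega
      · rw [h3, hp.adj_iff (by omega) le_rfl (by omega),
          hp.adj_iff (by omega) (by omega) (by omega)]
        omega
    · refine ⟨l - 1, by omega, fun h3 => h1 h3.symm, fun h3 => h2 (h3.1 (end_adj hp (by omega)))⟩

end Pool.Agent.HPP
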