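import Pool.Agent.HPP.Glue

/-!
The four small tables in `F ^ 3` and the two representations needed for the saturation.
-/

set_option autoImplicit false

namespace Pool.Agent.HPP

open Finset

section tables

theorem h_three (a b c d e f : F) : h ![a, b, c] ![d, e, f] = a * d ^ 2 + b * e ^ 2 + c * f ^ 2 := by
  simp [h, Fin.sum_univ_three]

theorem one_add_one_F : (1 : F) + 1 = 0 := CharTwo.add_self_eq_zero 1

theorem smul_three {a b c d e f x : F} (h : ![a, b, c] = x • ![d, e, f]) :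
    a = x * d ∧ b = x * e ∧ c = x * f :=
  ⟨by simpa using congrFun h 0, by simpa using congrFun h 1, by simpa using congrFun h 2⟩

/-- first table -/
noncomputable def C1 : ℕ → Fin 3 → F
  | 1 => ![1, 0, 0]
  | 2 => ![1, 1, 0]
  | 3 => ![0, 1, 1]
  | _ => ![0, 0, 1]

/-- second table -/
noncomputable def C2 : ℕ → Fin 3 → F
  | 1 => ![1, 1, 0]
  | 2 => ![1, 0, 0]
  | 3 => ![1, 1, 1]
  | _ => ![0, 0, 1]

/-- third table -/
noncomputable def C3 : ℕ → Fin 3 → F
  | 1 => ![0, 0, 1]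
  | 2 => ![1, 1, 1]
  | 3 => ![1, 0, 0]
  | _ => ![1, 1, 0]

/-- a table whose four vectors are a path -/
def IsTab (C : ℕ → Fin 3 → F) : Prop :=
  (∀ s, 1 ≤ s → s ≤ 4 → C s ≠ 0) ∧
    ∀ s s', 1 ≤ s → s ≤ 4 → 1 ≤ s' → s' ≤ 4 → s ≠ s' →
      (h (C s) (C s') ≠ 0 ↔ (s + 1 = s' ∨ s' + 1 = s)) ∧ ∀ e : F, C s ≠ e • C s'

theorem isTab1 : IsTab C1 := by
  have h2 := one_add_one_F
  constructor
  · intro s h1 h4
    interval_cases s <;> intro h0
    · have := congrFun h0 0; simp [C1] at this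
    · have := congrFun h0 0; simp [C1] at this
    · have := congrFun h0 1; simp [C1] at this
    · have := congrFun h0 2; simp [C1] at this
  · intro s s' a1 a2 a3 a4 hne
    interval_cases s <;> interval_cases s' <;>
      first
      | exact absurd rfl hne
      | refine ⟨by simp [C1, h_three, h2], fun e he => ?_⟩
        obtain ⟨e1, e2, e3⟩ := smul_three he
        simp only [mul_zero, mul_one] at e1 e2 e3
        first
        | exact one_ne_zero e1
        | exact one_ne_zero e2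
        | exact one_ne_zero e3
        | exact one_ne_zero (e1.trans e2.symm)
        | exact one_ne_zero (e2.trans e1.symm)
        | exact one_ne_zero (e1.trans e3.symm)
        | exact one_ne_zero (e3.trans e1.symm)
        | exact one_ne_zero (e2.trans e3.symm)
        | exact one_ne_zero (e3.trans e2.symm)

theorem isTab2 : IsTab C2 := by
  have h2 := one_add_one_F
  constructor
  · intro s h1 h4
    interval_cases s <;> intro h0
    · have := congrFun h0 0; simp [C2] at this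
    · have := congrFun h0 0; simp [C2] at this
    · have := congrFun h0 1; simp [C2] at this
    · have := congrFun h0 2; simp [C2] at this
  · intro s s' a1 a2 a3 a4 hne
    interval_cases s <;> interval_cases s' <;>
      first
      | exact absurd rfl hne
      | refine ⟨by simp [C2, h_three, h2], fun e he => ?_⟩
        obtain ⟨e1, e2, e3⟩ := smul_three he
        simp only [mul_zero, mul_one] at e1 e2 e3
        first
        | exact one_ne_zero e1
        | exact one_ne_zero e2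
        | exact one_ne_zero e3
        | exact one_ne_zero (e1.trans e2.symm)
        | exact one_ne_zero (e2.trans e1.symm)
        | exact one_ne_zero (e1.trans e3.symm)
        | exact one_ne_zero (e3.trans e1.symm)
        | exact one_ne_zero (e2.trans e3.symm)
        | exact one_ne_zero (e3.trans e2.symm)

theorem isTab3 : IsTab C3 := by
  have h2 := one_add_one_F
  constructor
  · intro s h1 h4
    interval_cases s <;> intro h0
    · have := congrFun h0 2; simp [C3] at this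
    · have := congrFun h0 0; simp [C3] at this
    · have := congrFun h0 0; simp [C3] at this
    · have := congrFun h0 0; simp [C3] at this
  · intro s s' a1 a2 a3 a4 hne
    interval_cases s <;> interval_cases s' <;>
      first
      | exact absurd rfl hne
      | refine ⟨by simp [C3, h_three, h2], fun e he => ?_⟩
        obtain ⟨e1, e2, e3⟩ := smul_three he
        simp only [mul_zero, mul_one] at e1 e2 e3
        first
        | exact one_ne_zero e1
        | exact one_ne_zero e2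
        | exact one_ne_zero e3
        | exact one_ne_zero (e1.trans e2.symm)
        | exact one_ne_zero (e2.trans e1.symm)
        | exact one_ne_zero (e1.trans e3.symm)
        | exact one_ne_zero (e3.trans e1.symm)
        | exact one_ne_zero (e2.trans e3.symm)
        | exact one_ne_zero (e3.trans e2.symm)

end tables

section path

variable {V : Type} {H : SimpleGraph V} {a : ℕ → V}

theorem PPath.adj_iff {l k k' : ℕ} (hp : PPath H a l) (hk : 1 ≤ k) (hkl : k ≤ l) (hkl' : k' ≤ l) :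
    H.Adj (a k) (a k') ↔ (k + 1 = k' ∨ k' + 1 = k) := by
  obtain ⟨k0, rfl⟩ : ∃ k0, k = k0 + 1 := ⟨k - 1, by omega⟩
  rw [hp.adj k0 (by omega)]
  constructor
  · rintro (h1 | ⟨h1, h2⟩)
    · have := hp.inj _ _ hkl' (by omega) h1
      omega
    · have := hp.inj _ _ hkl' h1 h2
      omega
  · rintro (h1 | h1)
    · right
      exact ⟨by omega, by rw [← h1]⟩
    · left
      have : k' = k0 := by omega
      rw [this]

theorem PPath.adj_out {l i k : ℕ} (hp : PPath H a l) {u : V} (hu : u ∈ Sj a l i) (hk : i < k)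
    (hkl : k ≤ l) (h1 : H.Adj u (a k)) : u = a i ∧ k = i + 1 := by
  obtain ⟨k0, rfl⟩ : ∃ k0, k = k0 + 1 := ⟨k - 1, by omega⟩
  rcases (hp.adj k0 (by omega) u).1 h1.symm with h2 | ⟨h2, h3⟩
  · rcases Nat.lt_or_ge i k0 with h4 | h4
    · exact absurd h2 (hu k0 h4 (by omega))
    · have h5 : k0 = i := by omega
      rw [h5] at h2
      exact ⟨h2, by rw [h5]⟩
  · exact absurd h3 (hu (k0 + 2) (by omega) h2)

theorem Sj_self (l : ℕ) : Sj a l l = Set.univ := by
  ext v
  simp only [Sj, Set.mem_setOf_eq, Set.mem_univ, iff_true]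
  intro i h1 h2
  omega

theorem mem_Sj_self' {l i : ℕ} (hp : PPath H a l) (hi : i ≤ l) : a i ∈ Sj a l i := by
  intro k h1 h2 h3
  have := hp.inj _ _ hi h2 h3
  omega

theorem repA_aux {i m : ℕ} (hp : PPath H a (i + 4)) {φ : V → Fin m → F}
    (hφ : RepOn H (Sj a (i + 4) i) m φ) {C : ℕ → Fin 3 → F} (hC : IsTab C) :
    ∃ φ' : V → Fin (m + 3) → F,
      RepOn (H.deleteEdges {s(a i, a (i + 1))}) Set.univ (m + 3) φ' ∧
      h (φ' (a i)) (φ' (a i)) = h (φ (a i)) (φ (a i)) ∧
      h (φ' (a (i + 1))) (φ' (a (i + 1))) = h (C 1) (C 1) := by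
  have K1 : ∀ u ∈ Sj a (i + 4) i, ∀ v ∈ Sj a (i + 4) i,
      ((H.deleteEdges {s(a i, a (i + 1))}).Adj u v ↔ H.Adj u v) := by
    intro u hu v hv
    rw [SimpleGraph.deleteEdges_adj]
    refine ⟨fun h4 => h4.1, fun h4 => ⟨h4, ?_⟩⟩
    rw [Set.mem_singleton_iff, Sym2.eq_iff]
    rintro (⟨-, h5⟩ | ⟨h5, -⟩)
    · exact hv (i + 1) (by omega) (by omega) h5
    · exact hu (i + 1) (by omega) (by omega) h5
  have K2 : ∀ u ∈ Sj a (i + 4) i, u ≠ a i → ∀ k, i < k → k ≤ i + 4 →
      ¬ (H.deleteEdges {s(a i, a (i + 1))}).Adj u (a k) := by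
    intro u hu hne k hk hkl h4
    rw [SimpleGraph.deleteEdges_adj] at h4
    exact hne (hp.adj_out hu hk hkl h4.1).1
  have K3 : ∀ k, i < k → k ≤ i + 4 → (h (0 : Fin 3 → F) (C (k - i)) ≠ 0 ↔
      (H.deleteEdges {s(a i, a (i + 1))}).Adj (a i) (a k)) := by
    intro k hk hkl
    rw [h_zero_left]
    refine ⟨fun h4 => absurd rfl h4, fun h4 => ?_⟩
    rw [SimpleGraph.deleteEdges_adj] at h4
    obtain ⟨-, h5⟩ := hp.adj_out (mem_Sj_self' hp (by omega)) hk hkl h4.1
    exact absurd (by rw [h5]; rfl) h4.2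
  have K4 : ∀ k k', i < k → k ≤ i + 4 → i < k' → k' ≤ i + 4 → k ≠ k' →
      (h (C (k - i)) (C (k' - i)) ≠ 0 ↔
        (H.deleteEdges {s(a i, a (i + 1))}).Adj (a k) (a k')) ∧
      ∀ e : F, C (k - i) ≠ e • C (k' - i) := by
    intro k k' hk hkl hk' hkl' hne
    obtain ⟨h4, h5⟩ := hC.2 (k - i) (k' - i) (by omega) (by omega) (by omega) (by omega) (by omega)
    refine ⟨?_, h5⟩
    rw [h4, SimpleGraph.deleteEdges_adj, hp.adj_iff (by omega) hkl hkl', Set.mem_singleton_iff,
      Sym2.eq_iff]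
    constructor
    · intro h6
      refine ⟨by omega, ?_⟩
      rintro (⟨h7, -⟩ | ⟨-, h7⟩)
      · have := hp.inj _ _ hkl (by omega) h7
        omega
      · have := hp.inj _ _ hkl' (by omega) h7
        omega
    · rintro ⟨h6, -⟩
      omega
  have K5 : ∀ k, i < k → k ≤ i + 4 → C (k - i) ≠ 0 := fun k hk hkl =>
    hC.1 (k - i) (by omega) (by omega)
  obtain ⟨φ', h1, h2, h3, -⟩ := glue (K := H.deleteEdges {s(a i, a (i + 1))}) (t := 3) hp.inj
    (by omega : i ≤ i + 4) le_rfl hφ 0 (fun k => C (k - i)) K1 K2 K3 K4 K5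
  refine ⟨φ', ?_, ?_, ?_⟩
  · rw [Sj_self] at h1
    exact h1
  · rw [h3, h_zero_left, add_zero]
  · rw [h2 (i + 1) (by omega) (by omega)]
    have : i + 1 - i = 1 := by omega
    rw [this]

theorem repA {i m : ℕ} (hp : PPath H a (i + 4))
    {φ : V → Fin m → F} (hφ : RepOn H (Sj a (i + 4) i) m φ) (β : F) (hβ : β = 0 ∨ β = 1) :
    ∃ φ' : V → Fin (m + 3) → F,
      RepOn (H.deleteEdges {s(a i, a (i + 1))}) Set.univ (m + 3) φ' ∧
      h (φ' (a i)) (φ' (a i)) = h (φ (a i)) (φ (a i)) ∧ h (φ' (a (i + 1))) (φ' (a (i + 1))) = β := by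
  have h2 := one_add_one_F
  rcases hβ with rfl | rfl
  · obtain ⟨φ', a1, a2, a3⟩ := repA_aux hp hφ isTab2
    exact ⟨φ', a1, a2, by rw [a3]; simp [C2, h_three, h2]⟩
  · obtain ⟨φ', a1, a2, a3⟩ := repA_aux hp hφ isTab1
    exact ⟨φ', a1, a2, by rw [a3]; simp [C1, h_three]⟩

theorem repB_aux {i m : ℕ} (hp : PPath H a (i + 4)) {φ : V → Fin m → F}
    (hφ : RepOn H (Sj a (i + 4) i) m φ) {C : ℕ → Fin 3 → F} (hC : IsTab C) (p : Fin 3 → F)
    (hpC : ∀ s, 1 ≤ s → s ≤ 4 → (h p (C s) ≠ 0 ↔ (s = 1 ∨ s = 4))) :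
    ∃ φ' : V → Fin (m + 3) → F,
      RepOn (H ⊔ SimpleGraph.edge (a i) (a (i + 4))) Set.univ (m + 3) φ' ∧
      h (φ' (a i)) (φ' (a i)) = h (φ (a i)) (φ (a i)) + h p p ∧
      h (φ' (a (i + 4))) (φ' (a (i + 4))) = h (C 4) (C 4) ∧
      h (φ' (a i)) (φ' (a (i + 4))) = h p (C 4) := by
  have e4 : i + 4 - i = 4 := by omega
  have K1 : ∀ u ∈ Sj a (i + 4) i, ∀ v ∈ Sj a (i + 4) i,
      ((H ⊔ SimpleGraph.edge (a i) (a (i + 4))).Adj u v ↔ H.Adj u v) := by
    intro u hu v hv
    rw [SimpleGraph.sup_adj, SimpleGraph.edge_adj]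
    refine ⟨?_, fun h5 => Or.inl h5⟩
    rintro (h5 | ⟨(⟨-, h5⟩ | ⟨h5, -⟩), -⟩)
    · exact h5
    · exact absurd h5 (hv (i + 4) (by omega) (by omega))
    · exact absurd h5 (hu (i + 4) (by omega) (by omega))
  have K2 : ∀ u ∈ Sj a (i + 4) i, u ≠ a i → ∀ k, i < k → k ≤ i + 4 →
      ¬ (H ⊔ SimpleGraph.edge (a i) (a (i + 4))).Adj u (a k) := by
    intro u hu hne k hk hkl h5
    rw [SimpleGraph.sup_adj, SimpleGraph.edge_adj] at h5
    rcases h5 with h5 | ⟨(⟨h5, -⟩ | ⟨h5, -⟩), -⟩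
    · exact hne (hp.adj_out hu hk hkl h5).1
    · exact hne h5
    · exact absurd h5 (hu (i + 4) (by omega) (by omega))
  have K3 : ∀ k, i < k → k ≤ i + 4 → (h p (C (k - i)) ≠ 0 ↔
      (H ⊔ SimpleGraph.edge (a i) (a (i + 4))).Adj (a i) (a k)) := by
    intro k hk hkl
    rw [hpC (k - i) (by omega) (by omega), SimpleGraph.sup_adj, SimpleGraph.edge_adj]
    constructor
    · rintro (h5 | h5)
      · left
        have h6 : k = i + 1 := by omega
        have := (hp.adj_iff (k := k) (k' := i) (by omega) hkl (by omega)).2 (by omega)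
        exact this.symm
      · right
        have h6 : k = i + 4 := by omega
        refine ⟨Or.inl ⟨rfl, by rw [h6]⟩, fun h7 => ?_⟩
        have := hp.inj _ _ (by omega) hkl h7
        omega
    · rintro (h5 | ⟨(⟨-, h5⟩ | ⟨h5, -⟩), -⟩)
      · obtain ⟨-, h6⟩ := hp.adj_out (mem_Sj_self' hp (by omega)) hk hkl h5
        left; omega
      · have := hp.inj _ _ hkl le_rfl h5
        right; omega
      · have := hp.inj _ _ (by omega) le_rfl h5
        omega
  have K4 : ∀ k k', i < k → k ≤ i + 4 → i < k' → k' ≤ i + 4 → k ≠ k' →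
      (h (C (k - i)) (C (k' - i)) ≠ 0 ↔
        (H ⊔ SimpleGraph.edge (a i) (a (i + 4))).Adj (a k) (a k')) ∧
      ∀ e : F, C (k - i) ≠ e • C (k' - i) := by
    intro k k' hk hkl hk' hkl' hne
    obtain ⟨h5, h6⟩ := hC.2 (k - i) (k' - i) (by omega) (by omega) (by omega) (by omega) (by omega)
    refine ⟨?_, h6⟩
    rw [h5, SimpleGraph.sup_adj, SimpleGraph.edge_adj, hp.adj_iff (by omega) hkl hkl']
    constructor
    · intro h7
      left; omega
    · rintro (h7 | ⟨(⟨h7, -⟩ | ⟨-, h7⟩), -⟩)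
      · omega
      · have := hp.inj _ _ hkl (by omega) h7
        omega
      · have := hp.inj _ _ hkl' (by omega) h7
        omega
  have K5 : ∀ k, i < k → k ≤ i + 4 → C (k - i) ≠ 0 := fun k hk hkl =>
    hC.1 (k - i) (by omega) (by omega)
  obtain ⟨φ', h1, h2, h3, h4⟩ := glue (K := H ⊔ SimpleGraph.edge (a i) (a (i + 4))) (t := 3) hp.inj
    (by omega : i ≤ i + 4) le_rfl hφ p (fun k => C (k - i)) K1 K2 K3 K4 K5
  refine ⟨φ', ?_, h3, ?_, ?_⟩
  · rw [Sj_self] at h1
    exact h1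
  · rw [h2 (i + 4) (by omega) (by omega), e4]
  · rw [h4 (i + 4) (by omega) (by omega), e4]

theorem repB {i m : ℕ} (hp : PPath H a (i + 4))
    {φ : V → Fin m → F} (hφ : RepOn H (Sj a (i + 4) i) m φ) (β : F) (hβ : β = 0 ∨ β = 1) :
    ∃ φ' : V → Fin (m + 3) → F,
      RepOn (H ⊔ SimpleGraph.edge (a i) (a (i + 4))) Set.univ (m + 3) φ' ∧
      h (φ' (a i)) (φ' (a i)) = h (φ (a i)) (φ (a i)) + β ∧
      h (φ' (a (i + 4))) (φ' (a (i + 4))) = β ∧ h (φ' (a i)) (φ' (a (i + 4))) = 1 := by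
  have h2 := one_add_one_F
  rcases hβ with rfl | rfl
  · obtain ⟨φ', a1, a2, a3, a4⟩ := repB_aux hp hφ isTab3 ![0, 1, 1] (by
      intro s s1 s4
      interval_cases s <;> simp [C3, h_three, h2])
    refine ⟨φ', a1, ?_, ?_, ?_⟩
    · rw [a2]; simp [h_three, h2]
    · rw [a3]; simp [C3, h_three, h2]
    · rw [a4]; simp [C3, h_three]
  · obtain ⟨φ', a1, a2, a3, a4⟩ := repB_aux hp hφ isTab1 ![1, 1, 1] (by
      intro s s1 s4
      interval_cases s <;> simp [C1, h_three, h2])
    refine ⟨φ', a1, ?_, ?_, ?_⟩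
    · rw [a2]; simp [h_three, h2]
    · rw [a3]; simp [C1, h_three]
    · rw [a4]; simp [C1, h_three]

end path

end Pool.Agent.HPP
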