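import Pool.Agent.HPP.Peel2
import Pool.Agent.HPP.Tables

/-!
# Removing the edge between the end of a pendant path and a vertex: the isotropic case
-/

set_option autoImplicit false

namespace Pool.Agent.HPP

open Finset

theorem no_twin_end {V : Type} {H : SimpleGraph V} {a : ℕ → V} {k : ℕ} (hp : PPath H a (k + 4))
    {t : V} (ht : t ≠ a (k + 3))
    (htw : ∀ z, z ≠ t → z ≠ a (k + 3) → z ≠ a (k + 4) → (H.Adj (a (k + 3)) z ↔ H.Adj t z)) :
    False := by
  have hne : ∀ p q, p ≤ k + 4 → q ≤ k + 4 → p ≠ q → a p ≠ a q := fun p q h1 h2 h3 h4 =>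
    h3 (hp.inj p q h1 h2 h4)
  by_cases h1 : t = a (k + 2)
  · subst h1
    have h2 := (htw (a (k + 1)) (hne _ _ (by omega) (by omega) (by omega))
      (hne _ _ (by omega) (by omega) (by omega)) (hne _ _ (by omega) (by omega) (by omega))).2
      ((hp.adj (k + 1) (by omega) _).2 (Or.inl rfl))
    rcases (hp.adj (k + 2) (by omega) _).1 h2 with h3 | ⟨-, h3⟩
    · exact hne _ _ (by omega) (by omega) (by omega) h3
    · exact hne _ _ (by omega) (by omega) (by omega) h3
  · have h2 := (htw (a (k + 2)) (Ne.symm h1)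
      (hne _ _ (by omega) (by omega) (by omega)) (hne _ _ (by omega) (by omega) (by omega))).1
      ((hp.adj (k + 2) (by omega) _).2 (Or.inl rfl))
    rcases (hp.adj (k + 1) (by omega) _).1 h2.symm with h3 | ⟨-, h3⟩
    · subst h3
      have h4 := (htw (a k) (hne _ _ (by omega) (by omega) (by omega))
        (hne _ _ (by omega) (by omega) (by omega)) (hne _ _ (by omega) (by omega) (by omega))).2
        ((hp.adj k (by omega) _).2 (Or.inl rfl))
      rcases (hp.adj (k + 2) (by omega) _).1 h4 with h5 | ⟨-, h5⟩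
      · exact hne _ _ (by omega) (by omega) (by omega) h5
      · exact hne _ _ (by omega) (by omega) (by omega) h5
    · exact ht h3

theorem plane_step {V : Type} {K : SimpleGraph V} {a : ℕ → V} {l m : ℕ} (hp : PPath K a l)
    (hl : 4 ≤ l) {u : V} (hul : ∀ i, i ≤ l → u ≠ a i) (hu0 : ¬ K.Adj u (a l))
    (hu1 : ∃ z, z ≠ a l ∧ K.Adj u z)
    (hu2 : ∀ w, w ≠ u → w ≠ a l → ∃ z, z ≠ u ∧ z ≠ w ∧ z ≠ a l ∧ ¬ (K.Adj u z ↔ K.Adj w z))
    {φ : V → Fin m → F} (hφ : RepOn (K ⊔ SimpleGraph.edge u (a l)) Set.univ m φ)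
    {v : Fin m → F} (hv0 : h v v = 0) (hv : ∀ w, w ≠ a l → h v (φ w) = 0)
    (hv1 : h v (φ (a l)) ≠ 0) :
    ∃ m', m = m' + 1 ∧ ∃ φ' : V → Fin m' → F, RepOn K Set.univ m' φ' := by
  obtain ⟨k, rfl⟩ : ∃ k, l = k + 4 := ⟨l - 4, by omega⟩
  set q := a (k + 4) with hq
  -- adjacency away from `q`
  have hadj : ∀ w z, z ≠ q → ((K ⊔ SimpleGraph.edge u q).Adj w z ↔ K.Adj w z ∨ (w = q ∧ z = u)) := by
    intro w z hz
    rw [SimpleGraph.sup_adj, SimpleGraph.edge_adj]
    constructor
    · rintro (h1 | ⟨⟨h1, h2⟩ | ⟨h1, h2⟩, -⟩)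
      · exact Or.inl h1
      · exact absurd h2 hz
      · exact Or.inr ⟨h1, h2⟩
    · rintro (h1 | ⟨h1, h2⟩)
      · exact Or.inl h1
      · exact Or.inr ⟨Or.inr ⟨h1, h2⟩, by rw [h1]; exact hz.symm⟩
  have hadj' : ∀ w z, w ≠ q → z ≠ q → ((K ⊔ SimpleGraph.edge u q).Adj w z ↔ K.Adj w z) := by
    intro w z hw hz
    rw [hadj w z hz]
    constructor
    · rintro (h1 | ⟨h1, -⟩)
      · exact h1
      · exact absurd h1 hw
    · exact Or.inl
  have huq : u ≠ q := hul _ le_rfl
  have hbq : a (k + 3) ≠ q := fun h1 => by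
    have := hp.inj _ _ (by omega) (by omega) h1
    omega
  have hcq : a (k + 2) ≠ q := fun h1 => by
    have := hp.inj _ _ (by omega) (by omega) h1
    omega
  -- neighbours of `q`
  have hnq : ∀ w, w ≠ q → h (φ w) (φ q) ≠ 0 → w = u ∨ w = a (k + 3) := by
    intro w hw h1
    have h2 := ((hφ.2 w (Set.mem_univ _) q (Set.mem_univ _) hw).2).1 h1
    rcases (hadj q w hw).1 h2.symm with h3 | ⟨-, h3⟩
    · rcases (hp.adj (k + 3) (by omega) _).1 h3 with h4 | ⟨h4, -⟩
      · exact Or.inr h4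
      · omega
    · exact Or.inl h3
  have hvw : ∀ w, w ≠ q → h (φ w) v = 0 := fun w hw => (h_eq_zero_comm _ _).1 (hv w hw)
  -- the first step of nonvanishing
  have hnv : ∀ w, w ≠ q → ∀ c : F, φ w ≠ c • v := by
    intro w hw c hc
    have hc0 : c ≠ 0 := by
      rintro rfl
      rw [zero_smul] at hc
      exact hφ.1 w (Set.mem_univ _) hc
    have h1 : w = u ∨ w = a (k + 3) := by
      apply hnq w hw
      rw [hc, h_smul_left]
      exact mul_ne_zero hc0 hv1
    have h2 : ∀ z, z ≠ q → z ≠ w → ¬ K.Adj w z := by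
      intro z hz hzw h3
      have h4 := ((hφ.2 w (Set.mem_univ _) z (Set.mem_univ _) hzw.symm).2).2
        ((hadj' w z hw hz).2 h3)
      rw [hc, h_smul_left, hv z hz, mul_zero] at h4
      exact h4 rfl
    rcases h1 with rfl | rfl
    · obtain ⟨z, hz, hz1⟩ := hu1
      exact h2 z hz hz1.ne' hz1
    · refine h2 (a (k + 2)) hcq ?_ ((hp.adj (k + 2) (by omega) _).2 (Or.inl rfl))
      intro h3
      have := hp.inj _ _ (by omega) (by omega) h3
      omega
  obtain ⟨m', hm, π, hπ, hker⟩ := peel_plane hv0 hv1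
  have hmem : ∀ w, w ∈ Sj a (k + 4) (k + 3) ↔ w ≠ q := by
    intro w
    constructor
    · intro h1
      exact h1 (k + 4) (by omega) le_rfl
    · intro h1 i h2 h3
      have : i = k + 4 := by omega
      rw [this]
      exact h1
  have hrep : RepOn K (Sj a (k + 4) (k + 3)) m' (fun w => π (φ w)) := by
    refine ⟨fun w hw h2 => ?_, fun w hw z hz hwz => ⟨fun c hc => ?_, ?_⟩⟩
    · rw [hmem] at hw
      obtain ⟨c, hc⟩ := hker _ (hvw w hw) h2
      exact hnv w hw c hc
    · rw [hmem] at hw hz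
      have hc' : π (φ w) = c • π (φ z) := hc
      have e1 : π (φ w - c • φ z) = 0 := by
        rw [map_sub, map_smul, hc', sub_self]
      have e2 : h (φ w - c • φ z) v = 0 := by
        rw [sub_eq_add_neg, h_add_left, ← neg_smul, h_smul_left, hvw w hw, hvw z hz]
        simp
      obtain ⟨g, hg⟩ := hker _ e2 e1
      have hg' : φ w = c • φ z + g • v := by
        rw [← hg, add_sub_cancel]
      have hc0 : c ≠ 0 := by
        rintro rfl
        rw [zero_smul, zero_add] at hg'
        exact hnv w hw g hg'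
      have hg0 : g ≠ 0 := by
        rintro rfl
        rw [zero_smul, add_zero] at hg'
        exact (hφ.2 w (Set.mem_univ _) z (Set.mem_univ _) hwz).1 c hg'
      have htw : ∀ y, y ≠ w → y ≠ z → y ≠ q → (K.Adj w y ↔ K.Adj z y) := by
        intro y hyw hyz hyq
        have e3 : h (φ w) (φ y) = c * h (φ z) (φ y) := by
          rw [hg', h_add_left, h_smul_left, h_smul_left, hv y hyq]
          simp
        rw [← hadj' w y hw hyq, ← hadj' z y hz hyq,
          ← (hφ.2 w (Set.mem_univ _) y (Set.mem_univ _) hyw.symm).2,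
          ← (hφ.2 z (Set.mem_univ _) y (Set.mem_univ _) hyz.symm).2, e3]
        simp [hc0]
      have hor : (w = u ∨ w = a (k + 3)) ∨ (z = u ∨ z = a (k + 3)) := by
        by_contra hno
        rw [not_or] at hno
        have h3 : h (φ w) (φ q) = 0 := by
          by_contra h4
          exact hno.1 (hnq w hw h4)
        have h4 : h (φ z) (φ q) = 0 := by
          by_contra h5
          exact hno.2 (hnq z hz h5)
        rw [hg', h_add_left, h_smul_left, h_smul_left, h4, mul_zero, zero_add] at h3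
        exact (mul_ne_zero hg0 hv1) h3
      rcases hor with (rfl | rfl) | (rfl | rfl)
      · obtain ⟨y, h3, h4, h5, h6⟩ := hu2 z hwz.symm hz
        exact h6 (htw y h3 h4 h5)
      · exact no_twin_end hp hwz.symm (fun y h3 h4 h5 => htw y h4 h3 h5)
      · obtain ⟨y, h3, h4, h5, h6⟩ := hu2 w hwz hw
        exact h6 (htw y h4 h3 h5).symm
      · exact no_twin_end hp hwz (fun y h3 h4 h5 => (htw y h3 h4 h5).symm)
    · rw [hmem] at hw hz
      show h (π (φ w)) (π (φ z)) ≠ 0 ↔ K.Adj w z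
      rw [hπ _ _ (hvw w hw) (hvw z hz), (hφ.2 w (Set.mem_univ _) z (Set.mem_univ _) hwz).2]
      exact hadj' w z hw hz
  obtain ⟨φ', hφ', -⟩ := ext1 hp (by omega) hrep
  refine ⟨m' + 1, hm, φ', ?_⟩
  have hS : Sj a (k + 4) (k + 3 + 1) = Set.univ := Sj_self (k + 4)
  rw [hS] at hφ'
  exact hφ'

end Pool.Agent.HPP
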