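import Pool.Agent.HPP.Peel1

/-!
Cutting an edge by a projection along a vector of norm one.
-/

set_option autoImplicit false

namespace Pool.Agent.HPP

open Finset

theorem vec_step {V : Type} {K : SimpleGraph V} {m : ℕ} {p q : V} (hpq : p ≠ q)
    (hna : ¬ K.Adj p q) (hp1 : ∃ z, z ≠ q ∧ K.Adj p z) (hq1 : ∃ z, z ≠ p ∧ K.Adj q z)
    (hp2 : ∀ w, w ≠ p → ∃ z, z ≠ p ∧ z ≠ w ∧ ¬ (K.Adj p z ↔ K.Adj w z))
    (hq2 : ∀ w, w ≠ q → ∃ z, z ≠ q ∧ z ≠ w ∧ ¬ (K.Adj q z ↔ K.Adj w z))
    {φ : V → Fin m → F} (hφ : RepOn (K ⊔ SimpleGraph.edge p q) Set.univ m φ)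
    {v : Fin m → F} (hv0 : h v v = 1) (hv : ∀ w, w ≠ p → w ≠ q → h v (φ w) = 0)
    (hv1 : h (φ p) v * h v (φ q) = h (φ p) (φ q)) :
    ∃ m', m = m' + 1 ∧ ∃ φ' : V → Fin m' → F, RepOn K Set.univ m' φ' := by
  classical
  rcases m with _ | m
  · exfalso
    have : h v v = 0 := by
      unfold h
      exact Finset.sum_of_isEmpty _
    rw [this] at hv0
    exact zero_ne_one hv0
  refine ⟨m, rfl, ?_⟩
  obtain ⟨T, hT, hTn⟩ := move1 hv0 (h_single_last m)
  obtain ⟨π, hπ⟩ := exists_drop T hT hTn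
  refine ⟨fun w => π (φ w), ?_⟩
  obtain ⟨h1, h2⟩ := hφ
  have horth : ∀ w, w ≠ p → w ≠ q → h (φ w) v = 0 := fun w hwp hwq =>
    (h_eq_zero_comm _ _).1 (hv w hwp hwq)
  have hv1' : h (φ q) v * h v (φ p) = h (φ q) (φ p) := by
    rw [← h_sq (φ p) (φ q), ← hv1, mul_pow, h_sq, h_sq, mul_comm]
  have hadj : ∀ a b, a ≠ b → (h (π (φ a)) (π (φ b)) ≠ 0 ↔ K.Adj a b) := by
    intro a b hab
    rw [hπ]
    by_cases hc : (a = p ∧ b = q) ∨ (a = q ∧ b = p)
    · rcases hc with ⟨rfl, rfl⟩ | ⟨rfl, rfl⟩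
      · rw [hv1, sub_self]
        exact ⟨fun h0 => absurd rfl h0, fun h0 => absurd h0 hna⟩
      · rw [hv1', sub_self]
        exact ⟨fun h0 => absurd rfl h0, fun h0 => absurd h0.symm hna⟩
    · have e1 : h (φ a) v * h v (φ b) = 0 := by
        by_cases ha : a = p ∨ a = q
        · have hbp : b ≠ p := by
            intro e
            rcases ha with ha | ha
            · exact hab (ha.trans e.symm)
            · exact hc (Or.inr ⟨ha, e⟩)
          have hbq : b ≠ q := by
            intro e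
            rcases ha with ha | ha
            · exact hc (Or.inl ⟨ha, e⟩)
            · exact hab (ha.trans e.symm)
          rw [hv b hbp hbq, mul_zero]
        · push Not at ha
          rw [horth a ha.1 ha.2, zero_mul]
      rw [e1, sub_zero, (h2 a trivial b trivial hab).2, SimpleGraph.sup_adj,
        SimpleGraph.edge_adj]
      constructor
      · rintro (h3 | ⟨h3, _⟩)
        · exact h3
        · exact absurd h3 hc
      · exact Or.inl
  -- `p` and `q` are not proportional to anything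
  have hkey : ∀ s : V, (∀ w, w ≠ s → ∃ z, z ≠ s ∧ z ≠ w ∧ ¬ (K.Adj s z ↔ K.Adj w z)) →
      ∀ w, w ≠ s → ∀ c : F, c ≠ 0 → π (φ s) ≠ c • π (φ w) := by
    intro s hs w hw c hc he
    obtain ⟨z, hzs, hzw, hz⟩ := hs w hw
    apply hz
    rw [← hadj s z (Ne.symm hzs), ← hadj w z (Ne.symm hzw), he, h_smul_left]
    constructor
    · intro hh hh0
      exact hh (by rw [hh0, mul_zero])
    · intro hh
      exact mul_ne_zero hc hh
  have hnz : ∀ s : V, (∃ z, K.Adj s z) → π (φ s) ≠ 0 := by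
    intro s hs h0
    obtain ⟨z, hz⟩ := hs
    have := (hadj s z hz.ne).2 hz
    rw [h0, h_zero_left] at this
    exact this rfl
  have hw0 : ∀ w, π (φ w) ≠ 0 := by
    intro w
    by_cases hwp : w = p
    · obtain ⟨z, _, hz⟩ := hp1
      exact hnz w ⟨z, by rw [hwp]; exact hz⟩
    · by_cases hwq : w = q
      · obtain ⟨z, _, hz⟩ := hq1
        exact hnz w ⟨z, by rw [hwq]; exact hz⟩
      · intro h0
        exact h1 w trivial (drop_inj hπ (horth w hwp hwq) h0)
  refine ⟨fun w _ => hw0 w, ?_⟩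
  intro a _ b _ hab
  refine ⟨?_, hadj a b hab⟩
  intro c he
  have he1 : π (φ a) = c • π (φ b) := he
  have hc : c ≠ 0 := by
    intro h0
    rw [h0, zero_smul] at he1
    exact hw0 a he1
  have he2 : π (φ b) = c⁻¹ • π (φ a) := by
    rw [he1, smul_smul, inv_mul_cancel₀ hc, one_smul]
  by_cases hap : a = p
  · rw [hap] at he1
    exact hkey p hp2 b (fun e => hab (hap.trans e.symm)) c hc he1
  by_cases haq : a = q
  · rw [haq] at he1
    exact hkey q hq2 b (fun e => hab (haq.trans e.symm)) c hc he1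
  by_cases hbp : b = p
  · rw [hbp] at he2
    exact hkey p hp2 a hap c⁻¹ (inv_ne_zero hc) he2
  by_cases hbq : b = q
  · rw [hbq] at he2
    exact hkey q hq2 a haq c⁻¹ (inv_ne_zero hc) he2
  have h5 : φ a - c • φ b = 0 := by
    refine drop_inj hπ ?_ ?_
    · rw [sub_eq_add_neg, ← neg_smul, h_add_left, h_smul_left, horth a hap haq,
        horth b hbp hbq, mul_zero, add_zero]
    · rw [map_sub, map_smul, he1, sub_self]
  exact (h2 a trivial b trivial hab).1 c (sub_eq_zero.1 h5)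

end Pool.Agent.HPP
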