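import Pool.Agent.HPP.Tri
import Pool.Agent.HPP.Plane
import Pool.Agent.HPP.Vec
import Pool.Agent.HPP.NoTwin

/-!
Deleting a bridge in the middle of a long path saves one dimension.
-/

set_option autoImplicit false

namespace Pool.Agent.HPP

open Finset

/-- two pendant paths `a 0, …, a k` in `S` and `b 0, …, b l` outside `S`, there being no edge
between `S` and its complement -/
structure TwoPaths {V : Type} (K : SimpleGraph V) (S : Set V) (a b : ℕ → V) (k l : ℕ) : Prop where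
  pa : PPath K a k
  pb : PPath K b l
  ma : ∀ i, i ≤ k → a i ∈ S
  mb : ∀ i, i ≤ l → b i ∉ S
  sep : ∀ x ∈ S, ∀ y, y ∉ S → ¬ K.Adj x y

theorem cut {V : Type} [Finite V] {K : SimpleGraph V} {S : Set V} {a b : ℕ → V} {k l m : ℕ}
    (hK : TwoPaths K S a b k l) (hk : 4 ≤ k) (hl : 4 ≤ l) {φ : V → Fin m → F}
    (hφ : RepOn (K ⊔ SimpleGraph.edge (a k) (b l)) Set.univ m φ) :
    ∃ m', m = m' + 1 ∧ ∃ φ' : V → Fin m' → F, RepOn K Set.univ m' φ' := by
  have hne : ∀ i j, i ≤ k → j ≤ l → a i ≠ b j := fun i j hi hj h0 =>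
    hK.mb j hj (h0 ▸ hK.ma i hi)
  have hpq : a k ≠ b l := hne k l le_rfl le_rfl
  have hna : ¬ K.Adj (a k) (b l) := hK.sep _ (hK.ma k le_rfl) _ (hK.mb l le_rfl)
  have hadj : (K ⊔ SimpleGraph.edge (a k) (b l)).Adj (a k) (b l) := by
    rw [SimpleGraph.sup_adj, SimpleGraph.edge_adj]
    exact Or.inr ⟨Or.inl ⟨rfl, rfl⟩, hpq⟩
  have ha1 := end_adj hK.pa (show 1 ≤ k by omega)
  have hb1 := end_adj hK.pb (show 1 ≤ l by omega)
  have ha2 := fun w hw => end_no_twin hK.pa (show 3 ≤ k by omega) w hw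
  have hb2 := fun w hw => end_no_twin hK.pb (show 3 ≤ l by omega) w hw
  have hia : ∀ i, i < k → a i ≠ a k := fun i hi h0 => by
    have := hK.pa.inj i k hi.le le_rfl h0
    omega
  have hib : ∀ i, i < l → b i ≠ b l := fun i hi h0 => by
    have := hK.pb.inj i l hi.le le_rfl h0
    omega
  rcases tri hφ (hK.ma k le_rfl) (hK.mb l le_rfl) hadj (by
    intro x hx y hy hxy
    rw [SimpleGraph.sup_adj, SimpleGraph.edge_adj] at hxy
    rcases hxy with h1 | ⟨⟨h1, h2⟩ | ⟨h1, -⟩, -⟩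
    · exact absurd h1 (hK.sep x hx y hy)
    · exact ⟨h1, h2⟩
    · exact absurd (h1 ▸ hx) (hK.mb l le_rfl)) with
    ⟨v, hv0, hv, hv1⟩ | ⟨v, hv0, hv, hv1⟩ | ⟨v, hv0, hv, hv1⟩
  · refine plane_step hK.pb hl (u := a k) (fun i hi => hne k i le_rfl hi) hna
      ⟨a (k - 1), hne _ _ (by omega) le_rfl, ha1⟩ ?_ hφ hv0 hv hv1
    intro w hw _
    obtain ⟨i, hi, hiw, h3⟩ := ha2 w hw
    exact ⟨a i, hia i hi, hiw, hne i l hi.le le_rfl, h3⟩
  · rw [SimpleGraph.edge_comm] at hφ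
    refine plane_step hK.pa hk (u := b l) (fun i hi => (hne i l hi le_rfl).symm)
      (fun h0 => hna h0.symm) ⟨b (l - 1), (hne _ _ le_rfl (by omega)).symm, hb1⟩ ?_ hφ hv0 hv hv1
    intro w hw _
    obtain ⟨i, hi, hiw, h3⟩ := hb2 w hw
    exact ⟨b i, hib i hi, hiw, (hne k i le_rfl hi.le).symm, h3⟩
  · refine vec_step hpq hna ⟨a (k - 1), hne _ _ (by omega) le_rfl, ha1⟩
      ⟨b (l - 1), (hne _ _ le_rfl (by omega)).symm, hb1⟩ ?_ ?_ hφ hv0 hv hv1
    · intro w hw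
      obtain ⟨i, hi, hiw, h3⟩ := ha2 w hw
      exact ⟨a i, hia i hi, hiw, h3⟩
    · intro w hw
      obtain ⟨i, hi, hiw, h3⟩ := hb2 w hw
      exact ⟨b i, hib i hi, hiw, h3⟩

end Pool.Agent.HPP
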