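import Mathlib

/-!
The hermitian form on `F_4^n` (conjugation is the square) and representations of graphs.
-/

set_option autoImplicit false

namespace Pool.Agent.HPP

open Finset

/-- the field with four elements -/
def F : Type := GaloisField 2 2

noncomputable instance : Field F := inferInstanceAs (Field (GaloisField 2 2))

instance : CharP F 2 := inferInstanceAs (CharP (GaloisField 2 2) 2)

instance : Finite F := inferInstanceAs (Finite (GaloisField 2 2))

noncomputable instance : Fintype F := Fintype.ofFinite F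

noncomputable instance : DecidableEq F := Classical.decEq F

theorem card_F : Nat.card F = 4 := by
  have h1 := GaloisField.card 2 2 (by norm_num)
  have h2 : Nat.card F = Nat.card (GaloisField 2 2) := rfl
  rw [h2, h1]
  norm_num

theorem pow_four (a : F) : a ^ 4 = a := by
  have h1 : Fintype.card F = 4 := by
    rw [← Nat.card_eq_fintype_card, card_F]
  have := FiniteField.pow_card a
  rwa [h1] at this

theorem pow_three {a : F} (ha : a ≠ 0) : a ^ 3 = 1 := by
  have := pow_four a
  have h1 : a * a ^ 3 = a * 1 := by rw [mul_one, ← pow_succ', this]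
  exact mul_left_cancel₀ ha h1

/-- conjugation is additive -/
theorem add_sq' (a b : F) : (a + b) ^ 2 = a ^ 2 + b ^ 2 := add_pow_char a b 2

theorem sq_sq' (a : F) : (a ^ 2) ^ 2 = a := by
  rw [← pow_mul]; exact pow_four a

theorem sum_sq' {ι : Type*} (s : Finset ι) (f : ι → F) : (∑ i ∈ s, f i) ^ 2 = ∑ i ∈ s, f i ^ 2 :=
  sum_pow_char 2 s f

/-- an element which is a root of `X^2 + X + 1` -/
theorem exists_omega : ∃ w : F, w ^ 2 = w + 1 ∧ w ≠ 0 ∧ w ≠ 1 := by
  obtain ⟨w, hw⟩ : ∃ w : F, w ∉ ({0, 1} : Set F) := by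
    by_contra hc
    push Not at hc
    have h1 : (Set.univ : Set F) ⊆ {0, 1} := fun x _ => hc x
    have h2 := Set.ncard_le_ncard h1 (Set.toFinite _)
    rw [Set.ncard_univ, card_F] at h2
    have h3 : ({0, 1} : Set F).ncard ≤ 2 := Set.ncard_insert_le _ _ |>.trans (by simp)
    omega
  simp only [Set.mem_insert_iff, Set.mem_singleton_iff, not_or] at hw
  refine ⟨w, ?_, hw.1, hw.2⟩
  have h3 := pow_three hw.1
  have h4 : (w + 1) * (w ^ 2 + w + 1) = 0 := by
    have h5 : (w + 1) * (w ^ 2 + w + 1) = w ^ 3 + 1 + 2 * (w ^ 2 + w) := by ring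
    have h6 : (2 : F) = 0 := CharTwo.two_eq_zero
    rw [h5, h3, h6, zero_mul, add_zero, CharTwo.add_self_eq_zero]
  rcases mul_eq_zero.1 h4 with h5 | h5
  · exact absurd (CharTwo.add_eq_zero.1 h5) hw.2
  · have h6 : w ^ 2 + (w + 1) = 0 := by rw [← add_assoc]; exact h5
    exact CharTwo.add_eq_zero.1 h6

/-- the hermitian form -/
noncomputable def h {n : ℕ} (v w : Fin n → F) : F := ∑ i, v i * w i ^ 2

variable {n : ℕ}

theorem h_add_left (u v w : Fin n → F) : h (u + v) w = h u w + h v w := by
  simp only [h, Pi.add_apply, add_mul, sum_add_distrib]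

theorem h_add_right (u v w : Fin n → F) : h u (v + w) = h u v + h u w := by
  simp only [h, Pi.add_apply, add_sq', mul_add, sum_add_distrib]

theorem h_smul_left (c : F) (v w : Fin n → F) : h (c • v) w = c * h v w := by
  simp only [h, Pi.smul_apply, smul_eq_mul, mul_sum, mul_assoc]

theorem h_smul_right (c : F) (v w : Fin n → F) : h v (c • w) = c ^ 2 * h v w := by
  simp only [h, Pi.smul_apply, smul_eq_mul, mul_sum]
  exact sum_congr rfl fun i _ => by ring

theorem h_zero_left (w : Fin n → F) : h 0 w = 0 := by simp [h]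

theorem h_zero_right (w : Fin n → F) : h w 0 = 0 := by simp [h]

theorem h_sq (v w : Fin n → F) : h v w ^ 2 = h w v := by
  simp only [h, sum_sq', mul_pow, sq_sq']
  exact sum_congr rfl fun i _ => by ring

theorem h_eq_zero_comm (v w : Fin n → F) : h v w = 0 ↔ h w v = 0 := by
  rw [← h_sq v w]
  exact (pow_eq_zero_iff two_ne_zero).symm

theorem h_self (v : Fin n → F) : h v v = 0 ∨ h v v = 1 := by
  have h1 := h_sq v v
  have h2 : h v v * (h v v - 1) = 0 := by rw [mul_sub, mul_one, ← sq, h1, sub_self]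
  rcases mul_eq_zero.1 h2 with h3 | h3
  · exact Or.inl h3
  · exact Or.inr (sub_eq_zero.1 h3)

/-- `φ` represents the part of the graph `K` on the set of vertices `S` -/
def RepOn {V : Type} (K : SimpleGraph V) (S : Set V) (n : ℕ) (φ : V → Fin n → F) : Prop :=
  (∀ u ∈ S, φ u ≠ 0) ∧
    ∀ u ∈ S, ∀ v ∈ S, u ≠ v → (∀ c : F, φ u ≠ c • φ v) ∧ (h (φ u) (φ v) ≠ 0 ↔ K.Adj u v)

/-- `a 0, a 1, …, a l` is a path of distinct vertices, the vertices `a 1, …, a l` having no other
neighbours (a pendant path with `l` vertices attached at `a 0`) -/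
structure PPath {V : Type} (H : SimpleGraph V) (a : ℕ → V) (l : ℕ) : Prop where
  inj : ∀ i j, i ≤ l → j ≤ l → a i = a j → i = j
  adj : ∀ i, i < l → ∀ v, H.Adj (a (i + 1)) v ↔ (v = a i ∨ (i + 2 ≤ l ∧ v = a (i + 2)))

/-- all vertices except `a (j + 1), …, a l` -/
def Sj {V : Type} (a : ℕ → V) (l j : ℕ) : Set V := {v | ∀ i, j < i → i ≤ l → v ≠ a i}

end Pool.Agent.HPP
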