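import Pool.Agent.HPP.Defs

/-!
Every finite graph has a representation (helper15, for MP_cdca5f_co)
-/

set_option autoImplicit false

namespace Pool.Agent.HPP

open Finset

theorem exists_rep {V : Type} [Finite V] (K : SimpleGraph V) :
    ∃ n : ℕ, ∃ φ : V → Fin n → F, RepOn K Set.univ n φ := by
  classical
  have : Fintype V := Fintype.ofFinite V
  let ψ : V → (V ⊕ Sym2 V) → F := fun u => Sum.elim (fun v => if u = v then 1 else 0)
    (fun s => if s ∈ K.edgeSet ∧ u ∈ s then 1 else 0)
  let e : (V ⊕ Sym2 V) ≃ Fin (Fintype.card (V ⊕ Sym2 V)) := Fintype.equivFin _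
  refine ⟨Fintype.card (V ⊕ Sym2 V), fun u i => ψ u (e.symm i), ?_, ?_⟩
  · intro u _ h0
    have h1 := congrFun h0 (e (Sum.inl u))
    simp [ψ] at h1
  · intro u _ v _ huv
    refine ⟨?_, ?_⟩
    · intro c h0
      have h1 := congrFun h0 (e (Sum.inl u))
      simp [ψ, huv.symm] at h1
    · have h2 : h (fun i => ψ u (e.symm i)) (fun i => ψ v (e.symm i)) = ∑ x, ψ u x * ψ v x ^ 2 := by
        unfold h
        exact e.symm.sum_comp fun x => ψ u x * ψ v x ^ 2
      rw [h2, Fintype.sum_sum_type]
      have h3 : ∑ a : V, ψ u (Sum.inl a) * ψ v (Sum.inl a) ^ 2 = 0 := by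
        apply Finset.sum_eq_zero
        intro a _
        by_cases ha : u = a
        · have : ¬ v = a := fun hva => huv (ha.trans hva.symm)
          simp [ψ, this]
        · simp [ψ, ha]
      have h4 : ∑ s : Sym2 V, ψ u (Sum.inr s) * ψ v (Sum.inr s) ^ 2 = if K.Adj u v then 1 else 0 := by
        rw [Finset.sum_eq_single s(u, v)]
        · simp [ψ]
        · intro s _ hs
          by_cases hu : u ∈ s
          · have : ¬ v ∈ s := fun hv => hs ((Sym2.mem_and_mem_iff huv).1 ⟨hu, hv⟩)
            simp [ψ, this]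
          · simp [ψ, hu]
        · intro hs; exact absurd (Finset.mem_univ _) hs
      rw [h3, h4, zero_add]
      by_cases hK : K.Adj u v <;> simp [hK]

end Pool.Agent.HPP
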