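import Pool.Agent.HPP.Defs

/-!
Peeling off a leaf of norm one, general form.
-/

set_option autoImplicit false

namespace Pool.Agent.HPP

open Finset

/-- the form is nondegenerate -/
theorem eq_zero_of_h {n : ℕ} (v : Fin n → F) (hv : ∀ w, h v w = 0) : v = 0 := by
  funext i
  have := hv (Pi.single i 1)
  unfold h at this
  rw [Finset.sum_eq_single i] at this
  · simpa using this
  · intro j _ hj
    rw [Pi.single_eq_of_ne hj]; simp
  · intro hi
    exact absurd (Finset.mem_univ i) hi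

/-- what a projection along `n₀` does -/
def IsDrop {m : ℕ} (n₀ : Fin (m + 1) → F) (π : (Fin (m + 1) → F) →ₗ[F] (Fin m → F)) : Prop :=
  ∀ v w, h (π v) (π w) = h v w - h v n₀ * h n₀ w

theorem drop_inj {m : ℕ} {n₀ : Fin (m + 1) → F} {π : (Fin (m + 1) → F) →ₗ[F] (Fin m → F)}
    (hπ : IsDrop n₀ π) {v : Fin (m + 1) → F} (hv : h v n₀ = 0) (h0 : π v = 0) : v = 0 := by
  refine eq_zero_of_h v fun w => ?_
  have := hπ v w
  rw [h0, h_zero_left, hv, zero_mul, sub_zero] at this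
  exact this.symm

/-- an isometry which takes `n₀` to the last basis vector gives a projection -/
theorem exists_drop {m : ℕ} {n₀ : Fin (m + 1) → F}
    (T : (Fin (m + 1) → F) ≃ₗ[F] (Fin (m + 1) → F)) (hT : ∀ v w, h (T v) (T w) = h v w)
    (hn : T n₀ = Pi.single (Fin.last m) 1) :
    ∃ π : (Fin (m + 1) → F) →ₗ[F] (Fin m → F), IsDrop n₀ π := by
  refine ⟨(LinearMap.funLeft F F Fin.castSucc).comp T.toLinearMap, fun v w => ?_⟩
  have e1 : h v n₀ = T v (Fin.last m) := by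
    rw [← hT, hn]
    unfold h
    rw [Finset.sum_eq_single (Fin.last m)]
    · simp
    · intro j _ hj
      rw [Pi.single_eq_of_ne hj]; simp
    · intro hi
      exact absurd (Finset.mem_univ _) hi
  have e2 : h n₀ w = T w (Fin.last m) ^ 2 := by
    rw [← hT, hn]
    unfold h
    rw [Finset.sum_eq_single (Fin.last m)]
    · simp
    · intro j _ hj
      rw [Pi.single_eq_of_ne hj]; simp
    · intro hi
      exact absurd (Finset.mem_univ _) hi
  have e3 : h v w = (∑ i : Fin m, T v i.castSucc * T w i.castSucc ^ 2)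
      + T v (Fin.last m) * T w (Fin.last m) ^ 2 := by
    rw [← hT]
    unfold h
    rw [Fin.sum_univ_castSucc]
  rw [e1, e2, e3, add_sub_cancel_right]
  rfl

/-- peeling off a leaf of norm one -/
theorem peel_gen {V : Type} {H : SimpleGraph V} {S : Set V} {m : ℕ} {φ : V → Fin (m + 1) → F}
    (hφ : RepOn H S (m + 1) φ) {p q : V} (hpS : p ∈ S) (hqS : q ∈ S) (hqp : q ≠ p)
    (hleaf : ∀ w ∈ S, w ≠ p → w ≠ q → ¬ H.Adj w p)
    {π : (Fin (m + 1) → F) →ₗ[F] (Fin m → F)} (hπ : IsDrop (φ p) π)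
    (hq : ∃ z ∈ S, z ≠ p ∧ z ≠ q ∧ H.Adj q z)
    (hd : ∀ w ∈ S, w ≠ p → w ≠ q →
      ∃ z ∈ S, z ≠ p ∧ z ≠ q ∧ z ≠ w ∧ ¬ (H.Adj q z ↔ H.Adj w z)) :
    RepOn H {v | v ∈ S ∧ v ≠ p} m (fun w => π (φ w)) := by
  obtain ⟨h1, h2⟩ := hφ
  have horth : ∀ w ∈ S, w ≠ p → w ≠ q → h (φ w) (φ p) = 0 := by
    intro w hwS hwp hwq
    by_contra hne
    exact hleaf w hwS hwp hwq ((h2 w hwS p hpS hwp).2.1 hne)
  have horth' : ∀ w ∈ S, w ≠ p → w ≠ q → h (φ p) (φ w) = 0 := fun w hS a b =>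
    (h_eq_zero_comm _ _).1 (horth w hS a b)
  have hprod : ∀ a ∈ S, ∀ b ∈ S, a ≠ p → b ≠ p → a ≠ b →
      h (π (φ a)) (π (φ b)) = h (φ a) (φ b) := by
    intro a haS b hbS ha hb hab
    rw [hπ]
    by_cases haq : a = q
    · have hbq : b ≠ q := fun e => hab (haq.trans e.symm)
      rw [horth' b hbS hb hbq, mul_zero, sub_zero]
    · rw [horth a haS ha haq, zero_mul, sub_zero]
  have hadj : ∀ a ∈ S, ∀ b ∈ S, a ≠ p → b ≠ p → a ≠ b →
      (h (π (φ a)) (π (φ b)) ≠ 0 ↔ H.Adj a b) := by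
    intro a haS b hbS ha hb hab
    rw [hprod a haS b hbS ha hb hab]
    exact (h2 a haS b hbS hab).2
  -- nothing is proportional to the image of `q`
  have hkey : ∀ w ∈ S, w ≠ p → w ≠ q → ∀ c : F, c ≠ 0 → π (φ q) ≠ c • π (φ w) := by
    intro w hwS hwp hwq c hc he
    obtain ⟨z, hzS, hzp, hzq, hzw, hz⟩ := hd w hwS hwp hwq
    apply hz
    rw [← hadj q hqS z hzS hqp hzp (Ne.symm hzq), ← hadj w hwS z hzS hwp hzp (Ne.symm hzw), he,
      h_smul_left]
    constructor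
    · intro hh hh0
      exact hh (by rw [hh0, mul_zero])
    · intro hh
      exact mul_ne_zero hc hh
  have hq0 : π (φ q) ≠ 0 := by
    intro h0
    obtain ⟨z, hzS, hzp, hzq, hqz⟩ := hq
    have := (hadj q hqS z hzS hqp hzp (Ne.symm hzq)).2 hqz
    rw [h0, h_zero_left] at this
    exact this rfl
  have hw0 : ∀ w ∈ S, w ≠ p → π (φ w) ≠ 0 := by
    intro w hwS hw
    by_cases hwq : w = q
    · rw [hwq]; exact hq0
    · intro h0
      exact h1 w hwS (drop_inj hπ (horth w hwS hw hwq) h0)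
  refine ⟨fun w hw => hw0 w hw.1 hw.2, ?_⟩
  intro a ha b hb hab
  refine ⟨?_, hadj a ha.1 b hb.1 ha.2 hb.2 hab⟩
  intro c he
  have he1 : π (φ a) = c • π (φ b) := he
  have hc : c ≠ 0 := by
    intro h0
    rw [h0, zero_smul] at he1
    exact hw0 a ha.1 ha.2 he1
  by_cases haq : a = q
  · have hbq : b ≠ q := fun e => hab (haq.trans e.symm)
    rw [haq] at he1
    exact hkey b hb.1 hb.2 hbq c hc he1
  · by_cases hbq : b = q
    · rw [hbq] at he1
      have he' : π (φ q) = c⁻¹ • π (φ a) := by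
        rw [he1, smul_smul, inv_mul_cancel₀ hc, one_smul]
      exact hkey a ha.1 ha.2 haq c⁻¹ (inv_ne_zero hc) he'
    · have h5 : φ a - c • φ b = 0 := by
        refine drop_inj hπ ?_ ?_
        · rw [sub_eq_add_neg, ← neg_smul, h_add_left, h_smul_left, horth a ha.1 ha.2 haq,
            horth b hb.1 hb.2 hbq, mul_zero, add_zero]
        · rw [map_sub, map_smul, he1, sub_self]
      exact (h2 a ha.1 b hb.1 hab).1 c (sub_eq_zero.1 h5)

end Pool.Agent.HPP
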