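import Pool.Agent.HPP.Iso1
import Pool.Agent.HPP.PeelGen

/-!
Peeling off the last vertex of the pendant path if it has norm one.
-/

set_option autoImplicit false

namespace Pool.Agent.HPP

open Finset

theorem h_single_last (m : ℕ) :
    h (Pi.single (Fin.last m) 1 : Fin (m + 1) → F) (Pi.single (Fin.last m) 1) = 1 := by
  unfold h
  rw [Finset.sum_eq_single (Fin.last m)]
  · simp
  · intro j _ hj
    rw [Pi.single_eq_of_ne hj]; simp
  · intro hi
    exact absurd (Finset.mem_univ _) hi

theorem peel1 {V : Type} {H : SimpleGraph V} {a : ℕ → V} {l j m : ℕ} (hp : PPath H a l) (hj : 4 ≤ j)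
    (hjl : j + 1 ≤ l) {φ : V → Fin m → F} (hφ : RepOn H (Sj a l (j + 1)) m φ)
    (h1 : h (φ (a (j + 1))) (φ (a (j + 1))) = 1) :
    ∃ m', m = m' + 1 ∧ ∃ φ' : V → Fin m' → F, RepOn H (Sj a l j) m' φ' := by
  rcases m with _ | m
  · exfalso
    have : h (φ (a (j + 1))) (φ (a (j + 1))) = 0 := by
      unfold h
      exact Finset.sum_of_isEmpty _
    rw [this] at h1
    exact zero_ne_one h1
  refine ⟨m, rfl, ?_⟩
  obtain ⟨T, hT, hTn⟩ := move1 h1 (h_single_last m)
  obtain ⟨π, hπ⟩ := exists_drop T hT hTn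
  obtain ⟨k, rfl⟩ : ∃ k, j = k + 4 := ⟨j - 4, by omega⟩
  have hmem : ∀ i, i ≤ k + 5 → a i ∈ Sj a l (k + 4 + 1) := by
    intro i hi i' hi' hi'l e
    have := hp.inj i i' (by omega) hi'l e
    omega
  have hne : ∀ i i', i ≤ k + 5 → i' ≤ k + 5 → i ≠ i' → a i ≠ a i' := by
    intro i i' hi hi' hii' e
    exact hii' (hp.inj i i' (by omega) (by omega) e)
  have hset : {v | v ∈ Sj a l (k + 4 + 1) ∧ v ≠ a (k + 4 + 1)} = Sj a l (k + 4) := by
    ext v
    constructor
    · rintro ⟨h2, h3⟩ i hi hil
      rcases Nat.lt_or_ge (k + 4 + 1) i with h4 | h4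
      · exact h2 i h4 hil
      · have : i = k + 4 + 1 := by omega
        rw [this]; exact h3
    · intro h2
      exact ⟨fun i hi hil => h2 i (by omega) hil, h2 (k + 4 + 1) (by omega) hjl⟩
  refine ⟨fun w => π (φ w), ?_⟩
  rw [← hset]
  have a5 := hp.adj (k + 4) (by omega)
  have a4 := hp.adj (k + 3) (by omega)
  have a3 := hp.adj (k + 2) (by omega)
  have a2 := hp.adj (k + 1) (by omega)
  refine peel_gen hφ (p := a (k + 4 + 1)) (q := a (k + 4)) (hmem _ (by omega)) (hmem _ (by omega))
    (hne _ _ (by omega) (by omega) (by omega)) ?_ hπ ?_ ?_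
  · intro w hwS hwp hwq hadj
    rcases (a5 w).1 hadj.symm with h2 | ⟨h2, h3⟩
    · exact hwq h2
    · exact hwS (k + 4 + 2) (by omega) h2 h3
  · exact ⟨a (k + 3), hmem _ (by omega), hne _ _ (by omega) (by omega) (by omega),
      hne _ _ (by omega) (by omega) (by omega), (a4 _).2 (Or.inl rfl)⟩
  · intro w hwS hwp hwq
    by_cases hw3 : w = a (k + 3)
    · refine ⟨a (k + 2), hmem _ (by omega), hne _ _ (by omega) (by omega) (by omega),
        hne _ _ (by omega) (by omega) (by omega), ?_, ?_⟩
      · rw [hw3]; exact hne _ _ (by omega) (by omega) (by omega)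
      · intro hiff
        have h2 : H.Adj w (a (k + 2)) := by
          rw [hw3]; exact (a3 _).2 (Or.inl rfl)
        rcases (a4 _).1 (hiff.2 h2) with h3 | ⟨_, h3⟩
        · exact hne (k + 2) (k + 3) (by omega) (by omega) (by omega) h3
        · exact hne (k + 2) (k + 3 + 2) (by omega) (by omega) (by omega) h3
    · by_cases hadj : H.Adj w (a (k + 3))
      · rcases (a3 w).1 hadj.symm with h2 | ⟨_, h2⟩
        · refine ⟨a (k + 1), hmem _ (by omega), hne _ _ (by omega) (by omega) (by omega),
            hne _ _ (by omega) (by omega) (by omega), ?_, ?_⟩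
          · rw [h2]; exact hne _ _ (by omega) (by omega) (by omega)
          · intro hiff
            have h3 : H.Adj w (a (k + 1)) := by
              rw [h2]; exact (a2 _).2 (Or.inl rfl)
            rcases (a4 _).1 (hiff.2 h3) with h4 | ⟨_, h4⟩
            · exact hne (k + 1) (k + 3) (by omega) (by omega) (by omega) h4
            · exact hne (k + 1) (k + 3 + 2) (by omega) (by omega) (by omega) h4
        · exact absurd h2 hwq
      · refine ⟨a (k + 3), hmem _ (by omega), hne _ _ (by omega) (by omega) (by omega),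
          hne _ _ (by omega) (by omega) (by omega), fun e => hw3 e.symm, ?_⟩
        intro hiff
        exact hadj (hiff.1 ((a4 _).2 (Or.inl rfl)))

end Pool.Agent.HPP
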