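import Pool.Agent.HPP.Iso

/-!
# Peeling an isotropic end vertex of a pendant path
-/

set_option autoImplicit false

namespace Pool.Agent.HPP

open Finset

/-- the projection along a vector of norm one -/
theorem peel_vec {m : ℕ} {p : Fin m → F} (hp : h p p = 1) :
    ∃ m', m = m' + 1 ∧ ∃ π : (Fin m → F) →ₗ[F] (Fin m' → F),
      (∀ v w, h v w = h (π v) (π w) + h v p * h p w) ∧ ∀ v, π v = 0 → v = h v p • p := by
  obtain _ | m' := m
  · simp [h] at hp
  refine ⟨m', rfl, ?_⟩
  set e : Fin (m' + 1) → F := Pi.single (Fin.last m') 1 with he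
  have hee : ∀ v : Fin (m' + 1) → F, h v e = v (Fin.last m') := by
    intro v
    simp only [h, he]
    rw [Fin.sum_univ_castSucc]
    simp [Pi.single_apply, Fin.castSucc_ne_last]
  have hee1 : h e e = 1 := by rw [hee, he]; simp
  obtain ⟨T, hT, hTp⟩ := move1 hp hee1
  have hlast : ∀ v, T v (Fin.last m') = h v p := by
    intro v
    rw [← hee (T v), ← hTp, hT]
  refine ⟨(LinearMap.funLeft F F Fin.castSucc).comp T.toLinearMap, ?_, ?_⟩
  · intro v w
    rw [← hT v w]
    have h1 : h (T v) (T w) = ∑ i : Fin m', T v i.castSucc * T w i.castSucc ^ 2 +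
        T v (Fin.last m') * T w (Fin.last m') ^ 2 := by
      simp only [h]
      rw [Fin.sum_univ_castSucc]
    rw [h1, hlast, hlast, h_sq w p]
    rfl
  · intro v hv
    apply T.injective
    rw [map_smul, hTp]
    funext i
    refine Fin.lastCases ?_ (fun i => ?_) i
    · rw [hlast]
      simp [he]
    · have := congrFun hv i
      have h2 : T v i.castSucc = 0 := this
      rw [h2]
      simp [he, Pi.single_apply, Fin.castSucc_ne_last]

/-- a norm one vector in the plane of an isotropic vector `x` and a vector not orthogonal to it -/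
theorem exists_norm_one {m : ℕ} {x y : Fin m → F} (hx : h x x = 0) (hxy : h x y ≠ 0) :
    ∃ c : F, h (y + c • x) (y + c • x) = 1 ∧ h x (y + c • x) = h x y := by
  have key : ∀ c : F, h x (y + c • x) = h x y := by
    intro c
    rw [h_add_right, h_smul_right, hx, mul_zero, add_zero]
  have key2 : ∀ c : F, h (y + c • x) (y + c • x) = h y y + ((c * h x y) ^ 2 + c * h x y) := by
    intro c
    rw [h_add_left, h_smul_left, key, h_add_right, h_smul_right, mul_pow, h_sq]
    ring
  rcases h_self y with h0 | h1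
  · obtain ⟨w, hw, -, -⟩ := exists_omega
    refine ⟨w / h x y, ?_, key _⟩
    rw [key2, div_mul_cancel₀ _ hxy, h0, hw, zero_add, add_comm w 1, add_assoc,
      CharTwo.add_self_eq_zero, add_zero]
  · exact ⟨0, by simp [h1], by simp⟩

/-- the projection along a hyperbolic plane -/
theorem peel_plane {m : ℕ} {x y : Fin m → F} (hx : h x x = 0) (hxy : h x y ≠ 0) :
    ∃ m', m = m' + 2 ∧ ∃ π : (Fin m → F) →ₗ[F] (Fin m' → F),
      (∀ v w, h v x = 0 → h w x = 0 → h (π v) (π w) = h v w) ∧
        ∀ v, h v x = 0 → π v = 0 → ∃ c : F, v = c • x := by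
  obtain ⟨c, hc1, hc2⟩ := exists_norm_one hx hxy
  set p := y + c • x with hp
  set b := h x y with hb
  have hb3 : b ^ 3 = 1 := pow_three hxy
  have hpx : h p x = b ^ 2 := by rw [← h_sq, hc2]
  have hqp : h (x + b • p) p = 0 := by
    rw [h_add_left, h_smul_left, hc1, hc2, mul_one, CharTwo.add_self_eq_zero]
  have hqx : h (x + b • p) x = 1 := by
    rw [h_add_left, h_smul_left, hx, hpx, zero_add, ← hb3]
    ring
  have hqq : h (x + b • p) (x + b • p) = 1 := by
    rw [h_add_right, h_smul_right, hqp, hqx, mul_zero, add_zero]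
  set q := x + b • p with hq
  obtain ⟨m1, rfl, π1, h1, h1k⟩ := peel_vec hc1
  have hqq' : h (π1 q) (π1 q) = 1 := by
    have := h1 q q
    rw [hqq, hqp, zero_mul, add_zero] at this
    exact this.symm
  obtain ⟨m2, rfl, π2, h2, h2k⟩ := peel_vec hqq'
  have hvq : ∀ v, h (π1 v) (π1 q) = h v q := by
    intro v
    have := h1 v q
    rw [(h_eq_zero_comm q p).1 hqp, mul_zero, add_zero] at this
    exact this.symm
  have hqv : ∀ v, h (π1 q) (π1 v) = h q v := by
    intro v
    rw [← h_sq, hvq, h_sq]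
  have hvx : ∀ v, h v x = 0 → h v q = b ^ 2 * h v p := by
    intro v hv
    rw [hq, h_add_right, h_smul_right, hv, zero_add]
  refine ⟨m2, rfl, π2.comp π1, ?_, ?_⟩
  · intro v w hv hw
    have e1 : h v w = h (π2 (π1 v)) (π2 (π1 w)) + h v q * h q w + h v p * h p w := by
      rw [h1 v w, h2 (π1 v) (π1 w), hvq, hqv]
    have e2 : h q w = b * h p w := by
      rw [← h_sq w q, hvx w hw, mul_pow, h_sq w p, sq_sq' b]
    have e3 : h v q * h q w + h v p * h p w = 0 := by
      rw [e2, hvx v hv]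
      have : b ^ 2 * h v p * (b * h p w) + h v p * h p w =
          b ^ 3 * (h v p * h p w) + h v p * h p w := by ring
      rw [this, hb3, one_mul, CharTwo.add_self_eq_zero]
    show h (π2 (π1 v)) (π2 (π1 w)) = h v w
    linear_combination -e1 - e3
  · intro v hv hk
    have e1 := h2k (π1 v) hk
    rw [hvq, ← map_smul, ← sub_eq_zero, ← map_sub] at e1
    have e2 := h1k _ e1
    refine ⟨b ^ 2 * h v p, ?_⟩
    have e3 : h (v - h v q • q) p = h v p := by
      rw [sub_eq_add_neg, h_add_left, ← neg_smul, h_smul_left, hqp, mul_zero, add_zero]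
    rw [e3, sub_eq_iff_eq_add, hvx v hv] at e2
    have e4 : h v p • p + (b ^ 2 * h v p) • q = (b ^ 2 * h v p) • x := by
      have e5 : b ^ 2 * h v p * b = h v p := by
        have : b ^ 2 * h v p * b = b ^ 3 * h v p := by ring
        rw [this, hb3, one_mul]
      have e6 : (b ^ 2 * h v p) • q = (b ^ 2 * h v p) • x + h v p • p := by
        rw [hq, smul_add, smul_smul, e5]
      rw [e6, add_left_comm, ← add_smul, CharTwo.add_self_eq_zero, zero_smul, add_zero]
    rw [e4] at e2
    exact e2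

/-- two vertices with the same neighbours cannot occur near the end of a pendant path -/
theorem no_twin {V : Type} {H : SimpleGraph V} {a : ℕ → V} {l k : ℕ} (hp : PPath H a l)
    (hl : k + 5 ≤ l) {t : V} (ht : t ≠ a (k + 3))
    (htw : ∀ z ∈ Sj a l (k + 3), z ≠ t → z ≠ a (k + 3) → (H.Adj (a (k + 3)) z ↔ H.Adj t z)) :
    False := by
  have hne : ∀ p q, p ≤ k + 5 → q ≤ k + 5 → p ≠ q → a p ≠ a q := fun p q h1 h2 h3 h4 =>
    h3 (hp.inj p q (by omega) (by omega) h4)
  have hmem : ∀ p, p ≤ k + 3 → a p ∈ Sj a l (k + 3) := by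
    intro p h1 i h2 h3 h4
    have := hp.inj p i (by omega) h3 h4
    omega
  by_cases h1 : t = a (k + 2)
  · subst h1
    have h2 := (htw (a (k + 1)) (hmem _ (by omega)) (hne _ _ (by omega) (by omega) (by omega))
      (hne _ _ (by omega) (by omega) (by omega))).2 ((hp.adj (k + 1) (by omega) _).2 (Or.inl rfl))
    rcases (hp.adj (k + 2) (by omega) _).1 h2 with h3 | ⟨-, h3⟩
    · exact hne _ _ (by omega) (by omega) (by omega) h3
    · exact hne _ _ (by omega) (by omega) (by omega) h3
  · have h2 := (htw (a (k + 2)) (hmem _ (by omega)) (Ne.symm h1)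
      (hne _ _ (by omega) (by omega) (by omega))).1 ((hp.adj (k + 2) (by omega) _).2 (Or.inl rfl))
    rcases (hp.adj (k + 1) (by omega) _).1 h2.symm with h3 | ⟨-, h3⟩
    · subst h3
      have h4 := (htw (a k) (hmem _ (by omega)) (hne _ _ (by omega) (by omega) (by omega))
        (hne _ _ (by omega) (by omega) (by omega))).2 ((hp.adj k (by omega) _).2 (Or.inl rfl))
      rcases (hp.adj (k + 2) (by omega) _).1 h4 with h5 | ⟨-, h5⟩
      · exact hne _ _ (by omega) (by omega) (by omega) h5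
      · exact hne _ _ (by omega) (by omega) (by omega) h5
    · exact ht h3

theorem peel2 {V : Type} {H : SimpleGraph V} {a : ℕ → V} {l j m : ℕ} (hp : PPath H a l) (hj : 4 ≤ j)
    (hjl : j + 1 ≤ l) {φ : V → Fin m → F} (hφ : RepOn H (Sj a l (j + 1)) m φ)
    (h1 : h (φ (a (j + 1))) (φ (a (j + 1))) = 0) :
    ∃ m', m = m' + 2 ∧ ∃ φ' : V → Fin m' → F, RepOn H (Sj a l (j - 1)) m' φ' := by
  obtain ⟨k, rfl⟩ : ∃ k, j = k + 4 := ⟨j - 4, by omega⟩
  have hk1 : k + 4 - 1 = k + 3 := rfl
  rw [hk1]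
  have hmem5 : a (k + 5) ∈ Sj a l (k + 4 + 1) := by
    intro i h2 h3 h4
    have := hp.inj _ i (by omega) h3 h4
    omega
  have hmem4 : a (k + 4) ∈ Sj a l (k + 4 + 1) := by
    intro i h2 h3 h4
    have := hp.inj _ i (by omega) h3 h4
    omega
  have hsub : ∀ u ∈ Sj a l (k + 3), u ∈ Sj a l (k + 4 + 1) :=
    fun u hu i h2 h3 => hu i (by omega) h3
  have hne5 : ∀ u ∈ Sj a l (k + 3), u ≠ a (k + 5) := fun u hu => hu (k + 5) (by omega) (by omega)
  have hne4 : ∀ u ∈ Sj a l (k + 3), u ≠ a (k + 4) := fun u hu => hu (k + 4) (by omega) (by omega)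
  set x := φ (a (k + 4 + 1)) with hx
  have hxy : h x (φ (a (k + 4))) ≠ 0 := by
    rw [hx]
    refine ((hφ.2 _ hmem5 _ hmem4 ?_).2).2 ((hp.adj (k + 4) (by omega) _).2 (Or.inl rfl))
    intro h2
    have := hp.inj _ _ (by omega) (by omega) h2
    omega
  have hux : ∀ u ∈ Sj a l (k + 3), h (φ u) x = 0 := by
    intro u hu
    by_contra h2
    have h3 := ((hφ.2 u (hsub u hu) _ hmem5 (hne5 u hu)).2).1 h2
    rcases (hp.adj (k + 4) (by omega) _).1 h3.symm with h4 | ⟨h4, h5⟩
    · exact hne4 u hu h4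
    · exact hu (k + 6) (by omega) (by omega) h5
  obtain ⟨m', hm, π, hπ, hker⟩ := peel_plane h1 hxy
  refine ⟨m', hm, fun u => π (φ u), fun u hu h2 => ?_, fun u hu v hv huv => ⟨fun c hc => ?_, ?_⟩⟩
  · obtain ⟨c, hc⟩ := hker _ (hux u hu) h2
    exact (hφ.2 u (hsub u hu) _ hmem5 (hne5 u hu)).1 c hc
  · have hc' : π (φ u) = c • π (φ v) := hc
    have e1 : π (φ u - c • φ v) = 0 := by
      rw [map_sub, map_smul, hc', sub_self]
    have e2 : h (φ u - c • φ v) x = 0 := by
      rw [sub_eq_add_neg, h_add_left, ← neg_smul, h_smul_left, hux u hu, hux v hv]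
      simp
    obtain ⟨g, hg⟩ := hker _ e2 e1
    have hg' : φ u = c • φ v + g • x := by
      rw [← hg, add_sub_cancel]
    have hc0 : c ≠ 0 := by
      rintro rfl
      rw [zero_smul, zero_add] at hg'
      exact (hφ.2 u (hsub u hu) _ hmem5 (hne5 u hu)).1 g hg'
    have hg0 : g ≠ 0 := by
      rintro rfl
      rw [zero_smul, add_zero] at hg'
      exact (hφ.2 u (hsub u hu) v (hsub v hv) huv).1 c hg'
    have htw : ∀ z ∈ Sj a l (k + 3), z ≠ u → z ≠ v → (H.Adj u z ↔ H.Adj v z) := by
      intro z hz hzu hzv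
      have e3 : h (φ u) (φ z) = c * h (φ v) (φ z) := by
        rw [hg', h_add_left, h_smul_left, h_smul_left, (h_eq_zero_comm _ _).1 (hux z hz)]
        simp
      rw [← (hφ.2 u (hsub u hu) z (hsub z hz) hzu.symm).2,
        ← (hφ.2 v (hsub v hv) z (hsub z hz) hzv.symm).2, e3]
      simp [hc0]
    have hor : u = a (k + 3) ∨ v = a (k + 3) := by
      by_contra hno
      push Not at hno
      have hz : ∀ w ∈ Sj a l (k + 3), w ≠ a (k + 3) → h (φ w) (φ (a (k + 4))) = 0 := by
        intro w hw hw3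
        by_contra h2
        have h3 := ((hφ.2 w (hsub w hw) _ hmem4 (hne4 w hw)).2).1 h2
        rcases (hp.adj (k + 3) (by omega) _).1 h3.symm with h4 | ⟨-, h4⟩
        · exact hw3 h4
        · exact hne5 w hw h4
      have e4 := hz u hu hno.1
      rw [hg', h_add_left, h_smul_left, h_smul_left, hz v hv hno.2, mul_zero, zero_add] at e4
      exact (mul_ne_zero hg0 hxy) e4
    rcases hor with h2 | h2
    · subst h2
      exact no_twin hp (by omega) (Ne.symm huv) (fun z hz h3 h4 => htw z hz h4 h3)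
    · subst h2
      exact no_twin hp (by omega) huv (fun z hz h3 h4 => (htw z hz h3 h4).symm)
  · show h (π (φ u)) (π (φ v)) ≠ 0 ↔ H.Adj u v
    rw [hπ _ _ (hux u hu) (hux v hv)]
    exact (hφ.2 u (hsub u hu) v (hsub v hv) huv).2

end Pool.Agent.HPP
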