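import Pool.Agent.HPP.Points
import Pool.Agent.HPP.Peel1
import Pool.Agent.HPP.Peel2
import Pool.Agent.HPP.Exists
import Pool.Agent.HPP.Tables

/-!
Every finite graph with a pendant path with at least ten vertices has a finite induced-saturated
graph.
-/

set_option autoImplicit false

namespace Pool.Agent.HPP

open Finset IndSat

/-- one vertex less, one dimension less -/
theorem peel {V : Type} {H : SimpleGraph V} {a : ℕ → V} {l j m : ℕ} (hp : PPath H a l)
    (hj : 4 ≤ j) (hjl : j + 1 ≤ l) {φ : V → Fin m → F} (hφ : RepOn H (Sj a l (j + 1)) m φ) :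
    ∃ m', m = m' + 1 ∧ ∃ φ' : V → Fin m' → F, RepOn H (Sj a l j) m' φ' := by
  rcases h_self (φ (a (j + 1))) with h0 | h1
  · obtain ⟨m', hm, φ', hφ'⟩ := peel2 hp hj hjl hφ h0
    obtain ⟨k, rfl⟩ : ∃ k, j = k + 1 := ⟨j - 1, by omega⟩
    rw [Nat.add_sub_cancel] at hφ'
    obtain ⟨φ'', h2, -⟩ := ext1 hp (by omega) hφ'
    exact ⟨m' + 1, by omega, φ'', h2⟩
  · exact peel1 hp hj hjl hφ h1

theorem descend {V : Type} {H : SimpleGraph V} {a : ℕ → V} {l : ℕ} (hp : PPath H a l) (k : ℕ) :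
    ∀ (j m : ℕ), 4 ≤ j → j + k ≤ l → ∀ φ : V → Fin m → F, RepOn H (Sj a l (j + k)) m φ →
      ∃ m', m = m' + k ∧ ∃ φ' : V → Fin m' → F, RepOn H (Sj a l j) m' φ' := by
  induction k with
  | zero => exact fun j m _ _ φ hφ => ⟨m, rfl, φ, hφ⟩
  | succ k ih =>
    intro j m hj hjk φ hφ
    obtain ⟨m1, h1, φ1, hφ1⟩ := peel hp (j := j + k) (by omega) (by omega) hφ
    obtain ⟨m2, h2, φ2, hφ2⟩ := ih j m1 hj (by omega) φ1 hφ1
    exact ⟨m2, by omega, φ2, hφ2⟩

/-- the shortened graph is represented in four dimensions less, with the norm of the end vertex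
as we like -/
theorem shorten {V : Type} {H : SimpleGraph V} {a : ℕ → V} {i m : ℕ} (hi : 6 ≤ i)
    (hp : PPath H a (i + 4)) {φ : V → Fin m → F} (hφ : RepOn H Set.univ m φ) :
    ∃ m', m = m' + 4 ∧ ∀ α : F, α = 0 ∨ α = 1 → ∃ φ' : V → Fin m' → F,
      RepOn H (Sj a (i + 4) i) m' φ' ∧ h (φ' (a i)) (φ' (a i)) = α := by
  obtain ⟨k, rfl⟩ : ∃ k, i = k + 2 := ⟨i - 2, by omega⟩
  rw [← Sj_self (a := a) (k + 2 + 4)] at hφ
  obtain ⟨m5, h5, φ5, hφ5⟩ := descend hp 5 (k + 1) m (by omega) (by omega) φ hφ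
  obtain ⟨m6, h6, φ6, hφ6⟩ := descend hp 6 k m (by omega) (by omega) φ hφ
  refine ⟨m5 + 1, by omega, ?_⟩
  rintro α (rfl | rfl)
  · obtain rfl : m5 = m6 + 1 := by omega
    obtain ⟨φ', h1, h2⟩ := ext2 hp (by omega) hφ6
    exact ⟨φ', h1, h2⟩
  · obtain ⟨φ', h1, h2⟩ := ext1 hp (by omega) hφ5
    exact ⟨φ', h1, h2⟩

theorem host {V : Type} [Finite V] {H : SimpleGraph V} {a : ℕ → V} {l : ℕ} (hl : 10 ≤ l)
    (hp : PPath H a l) : ∃ n, Sat H (Gr n) ∧ Nat.card V ≤ Nat.card (Pt n) := by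
  classical
  obtain ⟨i, rfl⟩ : ∃ i, l = i + 4 := ⟨l - 4, by omega⟩
  have hex : ∃ n, ∃ φ : V → Fin n → F, RepOn H Set.univ n φ := exists_rep H
  obtain ⟨φ0, hφ0⟩ := Nat.find_spec hex
  have hmin : ∀ n, n < Nat.find hex → ¬ ∃ φ : V → Fin n → F, RepOn H Set.univ n φ :=
    fun n hn => Nat.find_min hex hn
  obtain ⟨m, hm, hα⟩ := shorten (i := i) (by omega) hp hφ0
  have hinj := hp.inj
  have hu1 : a i ≠ a (i + 1) := fun h1 => by
    have := hinj _ _ (by omega) (by omega) h1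
    omega
  have hu4 : a i ≠ a (i + 4) := fun h1 => by
    have := hinj _ _ (by omega) (by omega) h1
    omega
  have hadj1 : H.Adj (a i) (a (i + 1)) := ((hp.adj i (by omega) (a i)).2 (Or.inl rfl)).symm
  have hadj4 : ¬ H.Adj (a i) (a (i + 4)) := by
    intro h1
    rcases (hp.adj (i + 3) (by omega) (a i)).1 h1.symm with h2 | ⟨h2, -⟩
    · have := hinj _ _ (by omega) (by omega) h2
      omega
    · omega
  -- the two kinds of representations with prescribed vectors
  have hA : ∀ x y : Fin (m + 3) → F, x ≠ 0 → y ≠ 0 → (∀ c : F, x ≠ c • y) → h x y = 0 →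
      ∃ φ : V → Fin (m + 3) → F,
        RepOn (H.deleteEdges {s(a i, a (i + 1))}) Set.univ (m + 3) φ ∧ φ (a i) = x ∧
          φ (a (i + 1)) = y := by
    intro x y hx hy hxy h0
    obtain ⟨φ1, h1, h2⟩ := hα _ (h_self x)
    obtain ⟨φ2, h3, h4, h5⟩ := repA hp h1 _ (h_self y)
    have h6 := h3.2 (a i) (Set.mem_univ _) (a (i + 1)) (Set.mem_univ _) hu1
    have h7 : h (φ2 (a i)) (φ2 (a (i + 1))) = 0 := by
      by_contra h8
      have := h6.2.1 h8
      rw [SimpleGraph.deleteEdges_adj] at this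
      exact this.2 (Set.mem_singleton _)
    obtain ⟨T, hT, hT1, hT2⟩ := pair_iso (h3.1 (a (i + 1)) (Set.mem_univ _)) h6.1 hy hxy
      (by rw [h4, h2]) h5 (by rw [h7, h0])
    exact ⟨fun v => T (φ2 v), h3.map T hT, hT1, hT2⟩
  have hB : ∀ x y : Fin (m + 3) → F, x ≠ 0 → y ≠ 0 → (∀ c : F, x ≠ c • y) → h x y = 1 →
      ∃ φ : V → Fin (m + 3) → F,
        RepOn (H ⊔ SimpleGraph.edge (a i) (a (i + 4))) Set.univ (m + 3) φ ∧ φ (a i) = x ∧
          φ (a (i + 4)) = y := by
    intro x y hx hy hxy h0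
    have hab : h x x + h y y = 0 ∨ h x x + h y y = 1 := by
      rcases h_self x with h1 | h1 <;> rcases h_self y with h2 | h2 <;> rw [h1, h2]
      · left; rw [add_zero]
      · right; rw [zero_add]
      · right; rw [add_zero]
      · left; exact CharTwo.add_self_eq_zero 1
    obtain ⟨φ1, h1, h2⟩ := hα _ hab
    obtain ⟨φ2, h3, h4, h5, h6⟩ := repB hp h1 _ (h_self y)
    have h7 := h3.2 (a i) (Set.mem_univ _) (a (i + 4)) (Set.mem_univ _) hu4
    obtain ⟨T, hT, hT1, hT2⟩ := pair_iso (h3.1 (a (i + 4)) (Set.mem_univ _)) h7.1 hy hxy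
      (by rw [h4, h2, add_assoc, CharTwo.add_self_eq_zero, add_zero]) h5 (by rw [h6, h0])
    exact ⟨fun v => T (φ2 v), h3.map T hT, hT1, hT2⟩
  refine ⟨m + 3, ⟨⟨fun f => ?_⟩, ?_⟩, ?_⟩
  · exact hmin (m + 3) (by omega) ⟨_, rep_of_embed f⟩
  · rintro G' ⟨e, he⟩
    induction e using Sym2.ind with
    | _ p q =>
    have hpq : p ≠ q := by
      rintro rfl
      have h1 := he s(p, p)
      rw [SimpleGraph.mem_edgeSet, SimpleGraph.mem_edgeSet] at h1
      have h2 : ((Gr (m + 3)).Adj p p ↔ G'.Adj p p) :=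
        ⟨fun h3 => absurd rfl h3.ne, fun h3 => absurd rfl h3.ne⟩
      exact (h1.1 h2) rfl
    have hp0 := p.rep_nonzero
    have hq0 := q.rep_nonzero
    have hxy : ∀ c : F, p.rep ≠ c • q.rep := by
      rw [← mk_ne hp0 hq0, Projectivization.mk_rep, Projectivization.mk_rep]
      exact hpq
    by_cases h0 : h p.rep q.rep = 0
    · obtain ⟨φ, h1, h2, h3⟩ := hA _ _ hp0 hq0 hxy h0
      refine flip_embed (u := a i) (v := a (i + 1)) ?_ ?_ h1 he ?_ ?_
      · intro b c hbc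
        rw [SimpleGraph.deleteEdges_adj]
        exact ⟨fun h4 => h4.1, fun h4 => ⟨h4, fun h5 => hbc (Set.mem_singleton_iff.1 h5)⟩⟩
      · rw [SimpleGraph.deleteEdges_adj]
        exact ⟨fun h4 => absurd (Set.mem_singleton _) h4.2, fun h4 => absurd hadj1 h4⟩
      · unfold toPt
        simp only [h2, Projectivization.mk_rep]
      · unfold toPt
        simp only [h3, Projectivization.mk_rep]
    · set g : F := h p.rep q.rep with hg
      set c : F := (g⁻¹) ^ 2 with hc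
      have hc0 : c ≠ 0 := pow_ne_zero 2 (inv_ne_zero h0)
      have hy0 : c • q.rep ≠ 0 := smul_ne_zero hc0 hq0
      have hxy' : ∀ d : F, p.rep ≠ d • c • q.rep := by
        intro d
        rw [smul_smul]
        exact hxy (d * c)
      have h1' : h p.rep (c • q.rep) = 1 := by
        rw [h_smul_right, ← hg, hc, sq_sq', inv_mul_cancel₀ h0]
      obtain ⟨φ, h1, h2, h3⟩ := hB _ _ hp0 hy0 hxy' h1'
      refine flip_embed (u := a i) (v := a (i + 4)) ?_ ?_ h1 he ?_ ?_
      · intro b d hbd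
        simp only [SimpleGraph.sup_adj, SimpleGraph.edge_adj]
        constructor
        · rintro (h4 | ⟨h4, -⟩)
          · exact h4
          · exact absurd (Sym2.eq_iff.2 h4) hbd
        · exact Or.inl
      · rw [SimpleGraph.sup_adj, SimpleGraph.edge_adj]
        exact ⟨fun _ => hadj4, fun _ => Or.inr ⟨Or.inl ⟨rfl, rfl⟩, hu4⟩⟩
      · unfold toPt
        simp only [h2, Projectivization.mk_rep]
      · unfold toPt
        simp only [h3]
        conv_rhs => rw [← Projectivization.mk_rep q]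
        rw [Projectivization.mk_eq_mk_iff']
        exact ⟨c, rfl⟩
  · -- the host has at least as many vertices: it contains the graph with one edge deleted
    obtain ⟨φ1, h1, -⟩ := hα 0 (Or.inl rfl)
    obtain ⟨φ2, h3, -, -⟩ := repA hp h1 0 (Or.inl rfl)
    exact Nat.card_le_card_of_injective _ (toPt_inj h3)

end Pool.Agent.HPP
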