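import Pool.Agent.HPP.Glue

/-!
Joining two vertices which are not adjacent, with one dimension more.
-/

set_option autoImplicit false

namespace Pool.Agent.HPP

open Finset

theorem join {V : Type} {K : SimpleGraph V} {m : ℕ} {u v : V} (huv : u ≠ v) (hna : ¬ K.Adj u v)
    {φ : V → Fin m → F} (hφ : RepOn K Set.univ m φ) :
    ∃ φ' : V → Fin (m + 1) → F, RepOn (K ⊔ SimpleGraph.edge u v) Set.univ (m + 1) φ' ∧
      h (φ' u) (φ' u) = h (φ u) (φ u) + 1 ∧
      (∀ w, w ≠ u → w ≠ v → h (φ' w) (φ' w) = h (φ w) (φ w)) ∧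
      (∀ w, w ≠ u → w ≠ v → h (φ' w) (φ' u) = h (φ w) (φ u)) := by
  classical
  let s : V → Fin 1 → F := fun w => if w = u ∨ w = v then 1 else 0
  have s1 : ∀ w, (w = u ∨ w = v) → s w = 1 := fun w hw => if_pos hw
  have s0 : ∀ w, ¬ (w = u ∨ w = v) → s w = 0 := fun w hw => if_neg hw
  have h11 : h (1 : Fin 1 → F) 1 = 1 := by simp [h]
  let φ' : V → Fin (m + 1) → F := fun w => Fin.append (φ w) (s w)
  have hh : ∀ x y, h (φ' x) (φ' y) = h (φ x) (φ y) + h (s x) (s y) := fun x y => h_append _ _ _ _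
  refine ⟨φ', ⟨?_, ?_⟩, ?_, ?_, ?_⟩
  · intro w hw h0
    apply hφ.1 w hw
    have h3 : Fin.append (φ w) (s w) = (0 : F) • Fin.append (0 : Fin m → F) (0 : Fin 1 → F) := by
      rw [zero_smul]; exact h0
    simpa using append_left_eq h3
  · intro x hx y hy hxy
    refine ⟨fun e he => (hφ.2 x hx y hy hxy).1 e (append_left_eq he), ?_⟩
    rw [hh, SimpleGraph.sup_adj, SimpleGraph.edge_adj, ← (hφ.2 x hx y hy hxy).2]
    by_cases hx1 : x = u ∨ x = v
    · by_cases hy1 : y = u ∨ y = v
      · rw [s1 x hx1, s1 y hy1, h11]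
        have hn : ¬ K.Adj x y := by
          rcases hx1 with rfl | rfl <;> rcases hy1 with rfl | rfl
          · exact absurd rfl hxy
          · exact hna
          · exact fun h' => hna h'.symm
          · exact absurd rfl hxy
        have h0 : h (φ x) (φ y) = 0 := by
          by_contra hc
          exact hn ((hφ.2 x hx y hy hxy).2.1 hc)
        rw [h0, zero_add]
        refine ⟨fun _ => Or.inr ⟨?_, hxy⟩, fun _ => one_ne_zero⟩
        rcases hx1 with rfl | rfl <;> rcases hy1 with rfl | rfl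
        · exact absurd rfl hxy
        · exact Or.inl ⟨rfl, rfl⟩
        · exact Or.inr ⟨rfl, rfl⟩
        · exact absurd rfl hxy
      · rw [s0 y hy1, h_zero_right, add_zero]
        refine ⟨Or.inl, fun h' => h'.resolve_right ?_⟩
        rintro ⟨⟨-, rfl⟩ | ⟨-, rfl⟩, -⟩
        · exact hy1 (Or.inr rfl)
        · exact hy1 (Or.inl rfl)
    · rw [s0 x hx1, h_zero_left, add_zero]
      refine ⟨Or.inl, fun h' => h'.resolve_right ?_⟩
      rintro ⟨⟨rfl, -⟩ | ⟨rfl, -⟩, -⟩
      · exact hx1 (Or.inl rfl)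
      · exact hx1 (Or.inr rfl)
  · rw [hh, s1 u (Or.inl rfl), h11]
  · intro w h1 h2
    rw [hh, s0 w (by rintro (h' | h') <;> contradiction), h_zero_left, add_zero]
  · intro w h1 h2
    rw [hh, s0 w (by rintro (h' | h') <;> contradiction), h_zero_left, add_zero]

end Pool.Agent.HPP
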