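import Pool.Agent.HPP.Fin
import Pool.Agent.HPP.Cut
import Pool.Agent.HPP.Join

/-!
Every finite graph with a long path of bridges, the inner vertices of which have degree two, has a
finite induced-saturated graph.
-/

set_option autoImplicit false

namespace Pool.Agent.HPP

open Finset IndSat

/-- saturation of the graph on the points from representations with prescribed vectors -/
theorem sat_of {V : Type} {H : SimpleGraph V} {n : ℕ} {a b c d : V} (hab : H.Adj a b)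
    (hcd : c ≠ d) (hncd : ¬ H.Adj c d) (hfree : ¬ ∃ φ : V → Fin n → F, RepOn H Set.univ n φ)
    (hA : ∀ x y : Fin n → F, x ≠ 0 → y ≠ 0 → (∀ e : F, x ≠ e • y) → h x y = 0 →
      ∃ φ : V → Fin n → F, RepOn (H.deleteEdges {s(a, b)}) Set.univ n φ ∧ φ a = x ∧ φ b = y)
    (hB : ∀ x y : Fin n → F, x ≠ 0 → y ≠ 0 → (∀ e : F, x ≠ e • y) → h x y = 1 →
      ∃ φ : V → Fin n → F, RepOn (H ⊔ SimpleGraph.edge c d) Set.univ n φ ∧ φ c = x ∧ φ d = y) :
    Sat H (Gr n) := by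
  refine ⟨⟨fun f => hfree ⟨_, rep_of_embed f⟩⟩, ?_⟩
  rintro G' ⟨e, he⟩
  induction e using Sym2.ind with
  | _ p q =>
  have hpq : p ≠ q := by
    rintro rfl
    have h1 := he s(p, p)
    rw [SimpleGraph.mem_edgeSet, SimpleGraph.mem_edgeSet] at h1
    have h2 : ((Gr n).Adj p p ↔ G'.Adj p p) :=
      ⟨fun h3 => absurd rfl h3.ne, fun h3 => absurd rfl h3.ne⟩
    exact (h1.1 h2) rfl
  have hp0 := p.rep_nonzero
  have hq0 := q.rep_nonzero
  have hxy : ∀ c : F, p.rep ≠ c • q.rep := by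
    rw [← mk_ne hp0 hq0, Projectivization.mk_rep, Projectivization.mk_rep]
    exact hpq
  by_cases h0 : h p.rep q.rep = 0
  · obtain ⟨φ, h1, h2, h3⟩ := hA _ _ hp0 hq0 hxy h0
    refine flip_embed (u := a) (v := b) ?_ ?_ h1 he ?_ ?_
    · intro b c hbc
      rw [SimpleGraph.deleteEdges_adj]
      exact ⟨fun h4 => h4.1, fun h4 => ⟨h4, fun h5 => hbc (Set.mem_singleton_iff.1 h5)⟩⟩
    · rw [SimpleGraph.deleteEdges_adj]
      exact ⟨fun h4 => absurd (Set.mem_singleton _) h4.2, fun h4 => absurd hab h4⟩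
    · unfold toPt
      simp only [h2, Projectivization.mk_rep]
    · unfold toPt
      simp only [h3, Projectivization.mk_rep]
  · set g : F := h p.rep q.rep with hg
    set s : F := (g⁻¹) ^ 2 with hs
    have hs0 : s ≠ 0 := pow_ne_zero 2 (inv_ne_zero h0)
    have hy0 : s • q.rep ≠ 0 := smul_ne_zero hs0 hq0
    have hxy' : ∀ d : F, p.rep ≠ d • s • q.rep := by
      intro d
      rw [smul_smul]
      exact hxy (d * s)
    have h1' : h p.rep (s • q.rep) = 1 := by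
      rw [h_smul_right, ← hg, hs, sq_sq', inv_mul_cancel₀ h0]
    obtain ⟨φ, h1, h2, h3⟩ := hB _ _ hp0 hy0 hxy' h1'
    refine flip_embed (u := c) (v := d) ?_ ?_ h1 he ?_ ?_
    · intro b d hbd
      simp only [SimpleGraph.sup_adj, SimpleGraph.edge_adj]
      constructor
      · rintro (h4 | ⟨h4, -⟩)
        · exact h4
        · exact absurd (Sym2.eq_iff.2 h4) hbd
      · exact Or.inl
    · rw [SimpleGraph.sup_adj, SimpleGraph.edge_adj]
      exact ⟨fun _ => hncd, fun _ => Or.inr ⟨Or.inl ⟨rfl, rfl⟩, hcd⟩⟩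
    · unfold toPt
      simp only [h2, Projectivization.mk_rep]
    · unfold toPt
      simp only [h3]
      conv_rhs => rw [← Projectivization.mk_rep q]
      rw [Projectivization.mk_eq_mk_iff']
      exact ⟨s, rfl⟩

theorem host2 {V : Type} [Finite V] {K : SimpleGraph V} {S : Set V} {a b : ℕ → V} {k l : ℕ}
    (hK : TwoPaths K S a b k l) (hk : 10 ≤ k) (hl : 4 ≤ l) :
    ∃ n, Sat (K ⊔ SimpleGraph.edge (a k) (b l)) (Gr n) ∧ Nat.card V ≤ Nat.card (Pt n) := by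
  classical
  obtain ⟨i, rfl⟩ : ∃ i, k = i + 4 := ⟨k - 4, by omega⟩
  set H := K ⊔ SimpleGraph.edge (a (i + 4)) (b l) with hH
  have hex : ∃ n, ∃ φ : V → Fin n → F, RepOn H Set.univ n φ := exists_rep H
  obtain ⟨φ0, hφ0⟩ := Nat.find_spec hex
  have hmin : ∀ n, n < Nat.find hex → ¬ ∃ φ : V → Fin n → F, RepOn H Set.univ n φ :=
    fun n hn => Nat.find_min hex hn
  obtain ⟨m1, hm1, φ1, hφ1⟩ := cut hK (by omega) hl hφ0
  obtain ⟨m, hm, hα⟩ := shorten (i := i) (by omega) hK.pa hφ1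
  have hp := hK.pa
  have hinj := hp.inj
  have hne : ∀ i' j, i' ≤ i + 4 → j ≤ l → a i' ≠ b j := fun i' j hi hj h0 =>
    hK.mb j hj (h0 ▸ hK.ma i' hi)
  have hu : ∀ p q, p ≤ i + 4 → q ≤ i + 4 → p ≠ q → a p ≠ a q := fun p q h1 h2 h3 h4 =>
    h3 (hinj p q h1 h2 h4)
  have hu1 : a i ≠ a (i + 1) := hu _ _ (by omega) (by omega) (by omega)
  have hu4 : a i ≠ a (i + 4) := hu _ _ (by omega) (by omega) (by omega)
  have hb0 : ∀ j, j ≤ i + 4 → a j ≠ b l := fun j hj => hne j l hj le_rfl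
  have hKadj1 : K.Adj (a i) (a (i + 1)) := ((hp.adj i (by omega) (a i)).2 (Or.inl rfl)).symm
  have hadj1 : H.Adj (a i) (a (i + 1)) := Or.inl hKadj1
  have hadj4K : ¬ K.Adj (a i) (a (i + 4)) := by
    intro h1
    rcases (hp.adj (i + 3) (by omega) (a i)).1 h1.symm with h2 | ⟨h2, -⟩
    · exact hu _ _ (by omega) (by omega) (by omega) h2
    · omega
  have hadj4 : ¬ H.Adj (a i) (a (i + 4)) := by
    rw [hH, SimpleGraph.sup_adj, SimpleGraph.edge_adj]
    rintro (h1 | ⟨⟨h1, -⟩ | ⟨h1, -⟩, -⟩)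
    · exact hadj4K h1
    · exact hu4 h1
    · exact hb0 i (by omega) h1
  have hKpq : ¬ K.Adj (a (i + 4)) (b l) := hK.sep _ (hK.ma _ le_rfl) _ (hK.mb _ le_rfl)
  have hne1 : s(a i, a (i + 1)) ≠ s(a (i + 4), b l) := by
    rw [Ne, Sym2.eq_iff]
    rintro (⟨h1, -⟩ | ⟨h1, -⟩)
    · exact hu4 h1
    · exact hb0 i (by omega) h1
  have hGA : (K.deleteEdges {s(a i, a (i + 1))}) ⊔ SimpleGraph.edge (a (i + 4)) (b l) =
      H.deleteEdges {s(a i, a (i + 1))} := by
    ext x y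
    rw [hH]
    simp only [SimpleGraph.sup_adj, SimpleGraph.deleteEdges_adj, SimpleGraph.edge_adj,
      Set.mem_singleton_iff]
    constructor
    · rintro (⟨h1, h2⟩ | h1)
      · exact ⟨Or.inl h1, h2⟩
      · refine ⟨Or.inr h1, fun h2 => hne1 ?_⟩
        rw [← h2, Sym2.eq_iff]
        exact h1.1
    · rintro ⟨h1 | h1, h2⟩
      · exact Or.inl ⟨h1, h2⟩
      · exact Or.inr h1
  have hGB : (K ⊔ SimpleGraph.edge (a i) (a (i + 4))) ⊔ SimpleGraph.edge (a (i + 4)) (b l) =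
      H ⊔ SimpleGraph.edge (a i) (a (i + 4)) := by
    rw [hH, sup_right_comm]
  have hnA : ¬ (K.deleteEdges {s(a i, a (i + 1))}).Adj (a (i + 4)) (b l) := by
    rw [SimpleGraph.deleteEdges_adj]
    exact fun h1 => hKpq h1.1
  have hnB : ¬ (K ⊔ SimpleGraph.edge (a i) (a (i + 4))).Adj (a (i + 4)) (b l) := by
    rw [SimpleGraph.sup_adj, SimpleGraph.edge_adj]
    rintro (h1 | ⟨⟨-, h1⟩ | ⟨-, h1⟩, -⟩)
    · exact hKpq h1
    · exact hb0 (i + 4) le_rfl h1.symm
    · exact hb0 i (by omega) h1.symm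
  have key1 : ∀ β : F, β = 0 ∨ β = 1 → β + 1 = 0 ∨ β + 1 = 1 := by
    rintro β (rfl | rfl)
    · right; rw [zero_add]
    · left; exact CharTwo.add_self_eq_zero 1
  refine ⟨m + 4, sat_of hadj1 hu4 hadj4 (hmin (m + 4) (by omega)) ?_ ?_, ?_⟩
  · intro x y hx hy hxy h0
    obtain ⟨φ2, h1, h2⟩ := hα _ (h_self x)
    obtain ⟨φ3, h3, h4, h5⟩ := repA hp h1 _ (h_self y)
    obtain ⟨φ4, h6, -, h7, -⟩ := join (hb0 (i + 4) le_rfl) hnA h3
    rw [hGA] at h6
    have e1 := h7 (a i) (hu _ _ (by omega) (by omega) (by omega)) (hb0 i (by omega))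
    have e2 := h7 (a (i + 1)) (hu _ _ (by omega) (by omega) (by omega)) (hb0 (i + 1) (by omega))
    have h8 := h6.2 (a i) (Set.mem_univ _) (a (i + 1)) (Set.mem_univ _) hu1
    have h9 : h (φ4 (a i)) (φ4 (a (i + 1))) = 0 := by
      by_contra h10
      have := h8.2.1 h10
      rw [SimpleGraph.deleteEdges_adj] at this
      exact this.2 (Set.mem_singleton _)
    obtain ⟨T, hT, hT1, hT2⟩ := pair_iso (h6.1 (a (i + 1)) (Set.mem_univ _)) h8.1 hy hxy
      (by rw [e1, h4, h2]) (by rw [e2, h5]) (by rw [h9, h0])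
    exact ⟨fun v => T (φ4 v), h6.map T hT, hT1, hT2⟩
  · intro x y hx hy hxy h0
    have hy1 := key1 _ (h_self y)
    have hab : h x x + (h y y + 1) = 0 ∨ h x x + (h y y + 1) = 1 := by
      rcases h_self x with h1 | h1 <;> rcases hy1 with h2 | h2 <;> rw [h1, h2]
      · left; rw [add_zero]
      · right; rw [zero_add]
      · right; rw [add_zero]
      · left; exact CharTwo.add_self_eq_zero 1
    obtain ⟨φ2, h1, h2⟩ := hα _ hab
    obtain ⟨φ3, h3, h4, h5, h6⟩ := repB hp h1 _ hy1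
    obtain ⟨φ4, h7, h8, h9, h10⟩ := join (hb0 (i + 4) le_rfl) hnB h3
    rw [hGB] at h7
    have e1 := h9 (a i) hu4 (hb0 i (by omega))
    have e2 := h10 (a i) hu4 (hb0 i (by omega))
    have h11 := h7.2 (a i) (Set.mem_univ _) (a (i + 4)) (Set.mem_univ _) hu4
    have e3 : h (φ4 (a i)) (φ4 (a i)) = h x x := by
      rw [e1, h4, h2, add_assoc, CharTwo.add_self_eq_zero, add_zero]
    have e4 : h (φ4 (a (i + 4))) (φ4 (a (i + 4))) = h y y := by
      rw [h8, h5, add_assoc, CharTwo.add_self_eq_zero, add_zero]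
    obtain ⟨T, hT, hT1, hT2⟩ := pair_iso (h7.1 (a (i + 4)) (Set.mem_univ _)) h11.1 hy hxy
      e3 e4 (by rw [e2, h6, h0])
    exact ⟨fun v => T (φ4 v), h7.map T hT, hT1, hT2⟩
  · obtain ⟨φ2, h1, -⟩ := hα 0 (Or.inl rfl)
    obtain ⟨φ3, h3, -, -⟩ := repA hp h1 0 (Or.inl rfl)
    obtain ⟨φ4, h6, -, -, -⟩ := join (hb0 (i + 4) le_rfl) hnA h3
    exact Nat.card_le_card_of_injective _ (toPt_inj h6)

end Pool.Agent.HPP
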