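import Pool.Agent.HPP.Defs

/-!
Gluing a configuration of vectors to a representation along the last vertex of the path.
-/

set_option autoImplicit false

namespace Pool.Agent.HPP

open Finset

theorem h_append {m t : ℕ} (x x' : Fin m → F) (y y' : Fin t → F) :
    h (Fin.append x y) (Fin.append x' y') = h x x' + h y y' := by
  unfold h
  rw [Fin.sum_univ_add]
  simp only [Fin.append_left, Fin.append_right]

theorem append_left_eq {m t : ℕ} {x x' : Fin m → F} {y y' : Fin t → F} {e : F}
    (hh : Fin.append x y = e • Fin.append x' y') : x = e • x' := by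
  funext k
  have := congrFun hh (Fin.castAdd t k)
  simpa only [Pi.smul_apply, Fin.append_left] using this

theorem append_right_eq {m t : ℕ} {x x' : Fin m → F} {y y' : Fin t → F} {e : F}
    (hh : Fin.append x y = e • Fin.append x' y') : y = e • y' := by
  funext k
  have := congrFun hh (Fin.natAdd m k)
  simpa only [Pi.smul_apply, Fin.append_right] using this

theorem mem_Sj_self {V : Type} {a : ℕ → V} {l i : ℕ}
    (hinj : ∀ p q, p ≤ l → q ≤ l → a p = a q → p = q) (hil : i ≤ l) : a i ∈ Sj a l i := by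
  intro q hq hql heq
  have := hinj i q hil hql heq
  omega

theorem mem_Sj_cases {V : Type} {a : ℕ → V} {l i j : ℕ} {v : V} (hv : v ∈ Sj a l j) :
    v ∈ Sj a l i ∨ ∃ k, i < k ∧ k ≤ j ∧ v = a k := by
  by_cases hc : ∃ k, i < k ∧ k ≤ j ∧ v = a k
  · exact Or.inr hc
  · left
    intro q hq hql heq
    rcases Nat.lt_or_ge j q with h1 | h1
    · exact hv q h1 hql heq
    · exact hc ⟨q, hq, h1, heq⟩

theorem glue {V : Type} {K H : SimpleGraph V} {a : ℕ → V} {l i j m t : ℕ}
    (hinj : ∀ p q, p ≤ l → q ≤ l → a p = a q → p = q) (hij : i ≤ j) (hjl : j ≤ l)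
    {φ : V → Fin m → F} (hφ : RepOn H (Sj a l i) m φ) (p : Fin t → F) (c : ℕ → Fin t → F)
    (hK1 : ∀ u ∈ Sj a l i, ∀ v ∈ Sj a l i, (K.Adj u v ↔ H.Adj u v))
    (hK2 : ∀ u ∈ Sj a l i, u ≠ a i → ∀ k, i < k → k ≤ j → ¬ K.Adj u (a k))
    (hK3 : ∀ k, i < k → k ≤ j → (h p (c k) ≠ 0 ↔ K.Adj (a i) (a k)))
    (hK4 : ∀ k k', i < k → k ≤ j → i < k' → k' ≤ j → k ≠ k' →
      (h (c k) (c k') ≠ 0 ↔ K.Adj (a k) (a k')) ∧ ∀ e : F, c k ≠ e • c k')
    (hc : ∀ k, i < k → k ≤ j → c k ≠ 0) :
    ∃ φ' : V → Fin (m + t) → F, RepOn K (Sj a l j) (m + t) φ' ∧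
      (∀ k, i < k → k ≤ j → h (φ' (a k)) (φ' (a k)) = h (c k) (c k)) ∧
      h (φ' (a i)) (φ' (a i)) = h (φ (a i)) (φ (a i)) + h p p ∧
      (∀ k, i < k → k ≤ j → h (φ' (a i)) (φ' (a k)) = h p (c k)) := by
  classical
  have hil : i ≤ l := hij.trans hjl
  let ps : V → Fin t → F := fun v => if v = a i then p else 0
  let φ' : V → Fin (m + t) → F := fun v =>
    if hv : ∃ k, i < k ∧ k ≤ j ∧ v = a k then Fin.append 0 (c hv.choose)
    else Fin.append (φ v) (ps v)
  have hT : ∀ k, i < k → k ≤ j → φ' (a k) = Fin.append 0 (c k) := by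
    intro k h1 h2
    have hv : ∃ k', i < k' ∧ k' ≤ j ∧ a k = a k' := ⟨k, h1, h2, rfl⟩
    have h3 : hv.choose = k :=
      hinj _ _ (hv.choose_spec.2.1.trans hjl) (h2.trans hjl) hv.choose_spec.2.2.symm
    have h4 : φ' (a k) = Fin.append 0 (c hv.choose) := dif_pos hv
    rw [h4, h3]
  have hS : ∀ v ∈ Sj a l i, φ' v = Fin.append (φ v) (ps v) := by
    intro v hv
    exact dif_neg fun ⟨k, h1, h2, h3⟩ => hv k h1 (h2.trans hjl) h3
  have hai : a i ∈ Sj a l i := mem_Sj_self hinj hil
  have hpi : ps (a i) = p := if_pos rfl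
  have hp0 : ∀ v, v ≠ a i → ps v = 0 := fun v hv => if_neg hv
  -- a vertex outside the tail against a tail vertex
  have hST : ∀ u ∈ Sj a l i, ∀ k, i < k → k ≤ j → h (φ' u) (φ' (a k)) = h (ps u) (c k) := by
    intro u hu k h1 h2
    rw [hS u hu, hT k h1 h2, h_append, h_zero_right, zero_add]
  have hSTK : ∀ u ∈ Sj a l i, ∀ k, i < k → k ≤ j → (h (ps u) (c k) ≠ 0 ↔ K.Adj u (a k)) := by
    intro u hu k h1 h2
    by_cases hui : u = a i
    · subst hui
      rw [hpi]
      exact hK3 k h1 h2
    · rw [hp0 u hui, h_zero_left]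
      exact ⟨fun h3 => absurd rfl h3, fun h3 => absurd h3 (hK2 u hu hui k h1 h2)⟩
  refine ⟨φ', ⟨?_, ?_⟩, ?_, ?_, ?_⟩
  · intro u hu h0
    rcases mem_Sj_cases (i := i) hu with hu | ⟨k, h1, h2, rfl⟩
    · rw [hS u hu] at h0
      apply hφ.1 u hu
      have h3 : Fin.append (φ u) (ps u) = (0 : F) • Fin.append (0 : Fin m → F) (0 : Fin t → F) := by
        rw [h0, zero_smul]
      simpa using append_left_eq h3
    · rw [hT k h1 h2] at h0
      apply hc k h1 h2
      have h3 : Fin.append (0 : Fin m → F) (c k) =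
          (0 : F) • Fin.append (0 : Fin m → F) (0 : Fin t → F) := by
        rw [h0, zero_smul]
      simpa using append_right_eq h3
  · intro u hu v hv huv
    rcases mem_Sj_cases (i := i) hu with hu | ⟨k, h1, h2, rfl⟩
    · rcases mem_Sj_cases (i := i) hv with hv | ⟨k', h1', h2', rfl⟩
      · refine ⟨fun e he => ?_, ?_⟩
        · rw [hS u hu, hS v hv] at he
          exact (hφ.2 u hu v hv huv).1 e (append_left_eq he)
        · rw [hS u hu, hS v hv, h_append, hK1 u hu v hv, ← (hφ.2 u hu v hv huv).2]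
          have h3 : h (ps u) (ps v) = 0 := by
            by_cases hui : u = a i
            · rw [hp0 v (fun hvi => huv (hui.trans hvi.symm)), h_zero_right]
            · rw [hp0 u hui, h_zero_left]
          rw [h3, add_zero]
      · refine ⟨fun e he => ?_, ?_⟩
        · rw [hS u hu, hT k' h1' h2'] at he
          have := append_left_eq he
          rw [smul_zero] at this
          exact hφ.1 u hu this
        · rw [hST u hu k' h1' h2']
          exact hSTK u hu k' h1' h2'
    · rcases mem_Sj_cases (i := i) hv with hv | ⟨k', h1', h2', rfl⟩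
      · refine ⟨fun e he => ?_, ?_⟩
        · rw [hS v hv, hT k h1 h2] at he
          have h3 := append_left_eq he
          have h4 := append_right_eq he
          have h5 : e = 0 := by
            by_contra he0
            exact hφ.1 v hv ((smul_eq_zero.1 h3.symm).resolve_left he0)
          rw [h5, zero_smul] at h4
          exact hc k h1 h2 h4
        · have h6 : h (φ' (a k)) (φ' v) ≠ 0 ↔ h (φ' v) (φ' (a k)) ≠ 0 :=
            not_congr (h_eq_zero_comm _ _)
          rw [h6, hST v hv k h1 h2, K.adj_comm]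
          exact hSTK v hv k h1 h2
      · have hkk : k ≠ k' := fun h3 => huv (by rw [h3])
        have h3 := hK4 k k' h1 h2 h1' h2' hkk
        refine ⟨fun e he => ?_, ?_⟩
        · rw [hT k h1 h2, hT k' h1' h2'] at he
          exact h3.2 e (append_right_eq he)
        · rw [hT k h1 h2, hT k' h1' h2', h_append, h_zero_left, zero_add]
          exact h3.1
  · intro k h1 h2
    rw [hT k h1 h2, h_append, h_zero_left, zero_add]
  · rw [hS _ hai, h_append, hpi]
  · intro k h1 h2
    rw [hST _ hai k h1 h2, hpi]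

theorem ext1 {V : Type} {H : SimpleGraph V} {a : ℕ → V} {l j m : ℕ} (hp : PPath H a l)
    (hj : j + 1 ≤ l) {φ : V → Fin m → F} (hφ : RepOn H (Sj a l j) m φ) :
    ∃ φ' : V → Fin (m + 1) → F, RepOn H (Sj a l (j + 1)) (m + 1) φ' ∧
      h (φ' (a (j + 1))) (φ' (a (j + 1))) = 1 := by
  have h11 : h (fun _ : Fin 1 => (1 : F)) (fun _ => 1) = 1 := by simp [h]
  obtain ⟨φ', h1, h2, -, -⟩ := glue (K := H) hp.inj (Nat.le_succ j) hj hφ (fun _ => (1 : F))
    (fun _ _ => (1 : F)) (fun _ _ _ _ => Iff.rfl) (by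
      intro u hu hui k hk1 hk2 hadj
      obtain rfl : k = j + 1 := by omega
      rcases (hp.adj j (by omega) u).1 hadj.symm with h3 | ⟨h3, h4⟩
      · exact hui h3
      · exact hu (j + 2) (by omega) h3 h4) (by
      intro k hk1 hk2
      obtain rfl : k = j + 1 := by omega
      refine ⟨fun _ => ((hp.adj j (by omega) (a j)).2 (Or.inl rfl)).symm, fun _ => ?_⟩
      rw [h11]
      exact one_ne_zero) (by
      intro k k' hk1 hk2 hk1' hk2' hkk
      exact absurd (by omega : k = k') hkk) (by
      intro k _ _ h0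
      exact one_ne_zero (congrFun h0 0))
  refine ⟨φ', h1, ?_⟩
  rw [h2 (j + 1) (by omega) le_rfl]
  exact h11

theorem ext2 {V : Type} {H : SimpleGraph V} {a : ℕ → V} {l j m : ℕ} (hp : PPath H a l)
    (hj : j + 2 ≤ l) {φ : V → Fin m → F} (hφ : RepOn H (Sj a l j) m φ) :
    ∃ φ' : V → Fin (m + 2) → F, RepOn H (Sj a l (j + 2)) (m + 2) φ' ∧
      h (φ' (a (j + 2))) (φ' (a (j + 2))) = 0 := by
  let e : Fin 2 → F := ![1, 1]
  let f : Fin 2 → F := ![1, 0]
  have hee : h e e = 0 := by
    simp only [h, e, Fin.sum_univ_two, Matrix.cons_val_zero, Matrix.cons_val_one, one_pow,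
      mul_one]
    exact CharTwo.add_self_eq_zero 1
  have hef : h e f = 1 := by
    simp [h, e, f, Fin.sum_univ_two]
  have hfe : h f e = 1 := by
    simp [h, e, f, Fin.sum_univ_two]
  have c1 : (if j + 1 = j + 1 then f else e) = f := if_pos rfl
  have c2 : (if j + 2 = j + 1 then f else e) = e := if_neg (by omega)
  obtain ⟨φ', h1, h2, -, -⟩ := glue (K := H) hp.inj (show j ≤ j + 2 by omega) hj hφ e
    (fun k => if k = j + 1 then f else e) (fun _ _ _ _ => Iff.rfl) (by
      intro u hu hui k hk1 hk2 hadj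
      rcases (show k = j + 1 ∨ k = j + 2 by omega) with rfl | rfl
      · rcases (hp.adj j (by omega) u).1 hadj.symm with h3 | ⟨h3, h4⟩
        · exact hui h3
        · exact hu (j + 2) (by omega) h3 h4
      · rcases (hp.adj (j + 1) (by omega) u).1 hadj.symm with h3 | ⟨h3, h4⟩
        · exact hu (j + 1) (by omega) (by omega) h3
        · exact hu (j + 3) (by omega) h3 h4) (by
      intro k hk1 hk2
      rcases (show k = j + 1 ∨ k = j + 2 by omega) with rfl | rfl
      · rw [c1]
        refine ⟨fun _ => ((hp.adj j (by omega) (a j)).2 (Or.inl rfl)).symm, fun _ => ?_⟩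
        rw [hef]
        exact one_ne_zero
      · rw [c2]
        refine ⟨fun h3 => absurd hee h3, fun h3 => ?_⟩
        rcases (hp.adj (j + 1) (by omega) (a j)).1 h3.symm with h4 | ⟨h4, h5⟩
        · have := hp.inj _ _ (by omega) (by omega) h4
          omega
        · have := hp.inj _ _ (by omega) (by omega) h5
          omega) (by
      have hfe' : ∀ c : F, f ≠ c • e := by
        intro c hcc
        have h3 := congrFun hcc 0
        have h4 := congrFun hcc 1
        simp [e, f] at h3 h4
        rw [← h4] at h3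
        exact one_ne_zero h3
      have hef' : ∀ c : F, e ≠ c • f := by
        intro c hcc
        have h4 := congrFun hcc 1
        simp [e, f] at h4
      intro k k' hk1 hk2 hk1' hk2' hkk
      rcases (show k = j + 1 ∨ k = j + 2 by omega) with rfl | rfl
      · obtain rfl : k' = j + 2 := by omega
        rw [c1, c2]
        refine ⟨⟨fun _ => ?_, fun _ => ?_⟩, hfe'⟩
        · exact ((hp.adj (j + 1) (by omega) (a (j + 1))).2 (Or.inl rfl)).symm
        · rw [hfe]; exact one_ne_zero
      · obtain rfl : k' = j + 1 := by omega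
        rw [c1, c2]
        refine ⟨⟨fun _ => ?_, fun _ => ?_⟩, hef'⟩
        · exact (hp.adj (j + 1) (by omega) (a (j + 1))).2 (Or.inl rfl)
        · rw [hef]; exact one_ne_zero) (by
      intro k hk1 hk2 h0
      rcases (show k = j + 1 ∨ k = j + 2 by omega) with rfl | rfl
      · rw [c1] at h0
        have := congrFun h0 0
        simp [f] at this
      · rw [c2] at h0
        have := congrFun h0 0
        simp [e] at this)
  refine ⟨φ', h1, ?_⟩
  rw [h2 (j + 2) (by omega) le_rfl, c2]
  exact hee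

end Pool.Agent.HPP
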