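import Pool.Agent.HPPI.Pair

/-!
`move1` and `pair_iso` (literals of HPP_STUBS, without a lower bound on `n`).
-/

set_option autoImplicit false

namespace Pool.Agent.HPP

theorem move1 {n : ℕ} {x x' : Fin n → F} (hx : h x x = 1) (hx' : h x' x' = 1) :
    ∃ T : (Fin n → F) ≃ₗ[F] (Fin n → F), (∀ v w, h (T v) (T w) = h v w) ∧ T x = x' := move1' hx hx'

theorem pair_iso {n : ℕ} {x y x' y' : Fin n → F} (hy : y ≠ 0)
    (hxy : ∀ c : F, x ≠ c • y) (hy' : y' ≠ 0) (hxy' : ∀ c : F, x' ≠ c • y')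
    (h1 : h x x = h x' x') (h2 : h y y = h y' y') (h3 : h x y = h x' y') :
    ∃ T : (Fin n → F) ≃ₗ[F] (Fin n → F), (∀ v w, h (T v) (T w) = h v w) ∧ T x = x' ∧ T y = y' :=
  pair_iso' hy hxy hy' hxy' h1 h2 h3

end Pool.Agent.HPP
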