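import Pool.Agent.HPP.Iso

/-!
Isometries: a single reflection (the transitivity on vectors and pairs is in `HPP.Iso`).
-/

set_option autoImplicit false

namespace Pool.Agent.HPP

theorem h_eq {n : ℕ} (v w : Fin n → F) : HPPI.h v w = h v w := rfl

theorem refl_iso {n : ℕ} {y y' : Fin n → F} (h1 : h y y = h y' y') (h2 : h y y' ≠ h y y) :
    ∃ T : (Fin n → F) ≃ₗ[F] (Fin n → F), (∀ v w, h (T v) (T w) = h v w) ∧ T y = y' ∧
      ∀ v, h v y = h v y' → T v = v := by
  set c : F := h y y + h y y' with hc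
  have hc0 : c ≠ 0 := by
    intro h0
    apply h2
    exact (CharTwo.add_eq_zero.1 h0).symm
  have hc3 : c ^ 3 = 1 := pow_three hc0
  have hs : h y (y + y') = c := h_add_right _ _ _
  have hw : h (y + y') (y + y') = h y y' + h y y' ^ 2 := by
    rw [h_add_left, h_add_right, h_add_right, h_sq, ← h1]
    have := CharTwo.add_self_eq_zero (h y y)
    linear_combination this
  have hN : h y y ^ 2 = h y y := h_sq y y
  have hg : HPPI.IsIsom (HPPI.refl' (c ^ 2) (y + y')) := by
    refine HPPI.refl'_isom isF4 ?_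
    rw [h_eq, hw]
    have e1 : (c ^ 2) ^ 2 = c := sq_sq' c
    have e2 : (c ^ 2) ^ 3 = 1 := by
      rw [← pow_mul, mul_comm, pow_mul, hc3, one_pow]
    have e3 : c ^ 2 = h y y ^ 2 + h y y' ^ 2 := by rw [hc, add_sq']
    rw [e1, e2, e3, hN, hc]
    have d1 := CharTwo.add_self_eq_zero (h y y)
    have d2 := CharTwo.add_self_eq_zero (h y y')
    have d3 := CharTwo.add_self_eq_zero (h y y' ^ 2)
    linear_combination d1 + d2 + d3
  obtain ⟨T, hT, hTg⟩ := equiv_of_isom hg
  refine ⟨T, hT, ?_, ?_⟩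
  · rw [hTg]
    change y + (c ^ 2 * h y (y + y')) • (y + y') = y'
    rw [hs]
    have e1 : c ^ 2 * c = 1 := by rw [← pow_succ]; exact hc3
    rw [e1, one_smul, ← add_assoc]
    have e2 : y + y = 0 := by
      funext i
      exact CharTwo.add_self_eq_zero (y i)
    rw [e2, zero_add]
  · intro v hv
    rw [hTg]
    change v + (c ^ 2 * h v (y + y')) • (y + y') = v
    rw [h_add_right, hv, CharTwo.add_self_eq_zero, mul_zero, zero_smul, add_zero]

end Pool.Agent.HPP
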