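import Pool.Agent.HPP.Defs

/-!
If the last path vector has norm `0`, the vector before it may be taken of norm `1`.
-/

set_option autoImplicit false

namespace Pool.Agent.HPP

open Finset

theorem norm_one {V : Type} {H : SimpleGraph V} {a : ℕ → V} {l j m : ℕ} (hp : PPath H a l)
    (hjl : j + 1 ≤ l) {φ : V → Fin m → F} (hφ : RepOn H (Sj a l (j + 1)) m φ)
    (h1 : h (φ (a (j + 1))) (φ (a (j + 1))) = 0) :
    ∃ φ' : V → Fin m → F, RepOn H (Sj a l (j + 1)) m φ' ∧ h (φ' (a j)) (φ' (a j)) = 1 ∧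
      h (φ' (a (j + 1))) (φ' (a (j + 1))) = 0 ∧ ∀ v, v ≠ a j → φ' v = φ v := by
  classical
  obtain ⟨hφ0, hφ2⟩ := hφ
  have hne : a j ≠ a (j + 1) := fun h0 => by
    have := hp.inj j (j + 1) (by omega) hjl h0
    omega
  have hmj : a j ∈ Sj a l (j + 1) := fun i h2 h3 h0 => by
    have := hp.inj j i (by omega) h3 h0
    omega
  have hmj1 : a (j + 1) ∈ Sj a l (j + 1) := fun i h2 h3 h0 => by
    have := hp.inj (j + 1) i hjl h3 h0
    omega
  set p := φ (a j) with hpdef
  set q := φ (a (j + 1)) with hqdef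
  have hadj : H.Adj (a (j + 1)) (a j) := (hp.adj j (by omega) (a j)).2 (Or.inl rfl)
  have hqp : h q p ≠ 0 := ((hφ2 _ hmj1 _ hmj hne.symm).2).2 hadj
  have hpq : h p q ≠ 0 := fun h0 => hqp ((h_eq_zero_comm p q).1 h0)
  have hq0 : ∀ v ∈ Sj a l (j + 1), v ≠ a j → h q (φ v) = 0 := by
    intro v hv hvj
    by_cases h2 : v = a (j + 1)
    · rw [h2, ← hqdef]; exact h1
    · by_contra h3
      have h4 := ((hφ2 _ hmj1 _ hv (Ne.symm h2)).2).1 h3
      rcases (hp.adj j (by omega) v).1 h4 with h5 | ⟨h5, h6⟩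
      · exact hvj h5
      · exact hv (j + 2) (by omega) h5 h6
  have hq0' : ∀ v ∈ Sj a l (j + 1), v ≠ a j → h (φ v) q = 0 := fun v hv hvj =>
    (h_eq_zero_comm q (φ v)).1 (hq0 v hv hvj)
  obtain ⟨c, hc⟩ : ∃ c : F, h (p + c • q) (p + c • q) = 1 := by
    have hexp : ∀ c : F, h (p + c • q) (p + c • q) = h p p + (c * h q p + (c * h q p) ^ 2) := by
      intro c
      rw [h_add_left, h_add_right, h_smul_left, h_add_right, h_smul_right, h_smul_right, h1,
        ← h_sq q p]
      ring
    rcases h_self p with h2 | h2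
    · obtain ⟨w, hw, -, -⟩ := exists_omega
      refine ⟨w / h q p, ?_⟩
      rw [hexp, h2, div_mul_cancel₀ _ hqp, hw, zero_add, ← add_assoc, CharTwo.add_self_eq_zero,
        zero_add]
    · refine ⟨0, ?_⟩
      rw [hexp, h2]
      ring
  have hx : h (p + c • q) q = h p q := by
    rw [h_add_left, h_smul_left, h1, mul_zero, add_zero]
  have hxv : ∀ v ∈ Sj a l (j + 1), v ≠ a j → h (p + c • q) (φ v) = h p (φ v) := by
    intro v hv hvj
    rw [h_add_left, h_smul_left, hq0 v hv hvj, mul_zero, add_zero]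
  have hoff : ∀ v, v ≠ a j → Function.update φ (a j) (p + c • q) v = φ v := fun v hv =>
    Function.update_of_ne hv _ _
  refine ⟨Function.update φ (a j) (p + c • q), ⟨?_, ?_⟩, ?_, ?_, hoff⟩
  · intro u hu
    by_cases huj : u = a j
    · rw [huj, Function.update_self]
      intro h0
      rw [h0, h_zero_left] at hx
      exact hpq hx.symm
    · rw [hoff u huj]; exact hφ0 u hu
  · intro u hu v hv huv
    by_cases huj : u = a j
    · have hvj : v ≠ a j := fun h0 => huv (by rw [huj, h0])
      subst huj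
      rw [Function.update_self, hoff v hvj]
      refine ⟨fun e h0 => ?_, ?_⟩
      · rw [h0, h_smul_left, hq0' v hv hvj, mul_zero] at hx
        exact hpq hx.symm
      · rw [hxv v hv hvj]; exact (hφ2 _ hu v hv huv).2
    · by_cases hvj : v = a j
      · subst hvj
        rw [Function.update_self, hoff u huj]
        refine ⟨fun e h0 => ?_, ?_⟩
        · have h2 := hq0' u hu huj
          rw [h0, h_smul_left, hx] at h2
          rcases mul_eq_zero.1 h2 with h3 | h3
          · rw [h3, zero_smul] at h0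
            exact hφ0 u hu h0
          · exact hpq h3
        · rw [← (hφ2 u hu _ hv huv).2, ← h_sq (p + c • q) (φ u), hxv u hu huj, h_sq]
      · rw [hoff u huj, hoff v hvj]; exact hφ2 u hu v hv huv
  · rw [Function.update_self]; exact hc
  · rw [hoff _ hne.symm]; exact h1

end Pool.Agent.HPP
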