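import Pool.Agent.HPP.Iso
import Pool.Agent.HPP.Glue
import Pool.Agent.IndSat.Final

/-!
The graph on the points of the hermitian space over `F_4`, two points being adjacent when they
are not orthogonal.
-/

set_option autoImplicit false

namespace Pool.Agent.HPP

open Finset

/-- the points of the projective space -/
abbrev Pt (n : ℕ) : Type := Projectivization F (Fin n → F)

/-- the graph on the points: adjacent when not orthogonal -/
noncomputable def Gr (n : ℕ) : SimpleGraph (Pt n) where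
  Adj p q := p ≠ q ∧ h p.rep q.rep ≠ 0
  symm := ⟨fun _ _ hh => ⟨hh.1.symm, fun h0 => hh.2 ((h_eq_zero_comm _ _).1 h0)⟩⟩
  loopless := ⟨fun _ hh => hh.1 rfl⟩

theorem mk_ne {n : ℕ} {x y : Fin n → F} (hx : x ≠ 0) (hy : y ≠ 0) :
    Projectivization.mk F x hx ≠ Projectivization.mk F y hy ↔ ∀ c : F, x ≠ c • y := by
  rw [Ne, Projectivization.mk_eq_mk_iff']
  push Not
  exact ⟨fun h1 c h2 => h1 c h2.symm, fun h1 c h2 => h1 c h2.symm⟩

theorem gr_adj {n : ℕ} {x y : Fin n → F} (hx : x ≠ 0) (hy : y ≠ 0) :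
    (Gr n).Adj (Projectivization.mk F x hx) (Projectivization.mk F y hy) ↔
      (∀ c : F, x ≠ c • y) ∧ h x y ≠ 0 := by
  obtain ⟨a, ha⟩ := Projectivization.exists_smul_eq_mk_rep F x hx
  obtain ⟨b, hb⟩ := Projectivization.exists_smul_eq_mk_rep F y hy
  change _ ≠ _ ∧ h _ _ ≠ 0 ↔ _
  rw [mk_ne, ← ha, ← hb, Units.smul_def, Units.smul_def, h_smul_left, h_smul_right]
  refine and_congr_right fun _ => not_congr ?_
  have h1 : (a : F) ≠ 0 := a.ne_zero
  have h2 : (b : F) ≠ 0 := b.ne_zero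
  constructor
  · intro h3
    rcases mul_eq_zero.1 h3 with h4 | h4
    · exact absurd h4 h1
    · exact (mul_eq_zero.1 h4).resolve_left (pow_ne_zero 2 h2)
  · intro h3
    rw [h3, mul_zero, mul_zero]

theorem rep_of_embed {V : Type} {K : SimpleGraph V} {n : ℕ} (f : K ↪g Gr n) :
    RepOn K Set.univ n (fun u => (f u).rep) := by
  refine ⟨fun u _ => (f u).rep_nonzero, ?_⟩
  intro u _ v _ huv
  have h1 : f u ≠ f v := fun h => huv (f.injective h)
  have h2 : ∀ c : F, (f u).rep ≠ c • (f v).rep := by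
    rw [← mk_ne (f u).rep_nonzero (f v).rep_nonzero, Projectivization.mk_rep,
      Projectivization.mk_rep]
    exact h1
  refine ⟨h2, ?_⟩
  rw [← f.map_rel_iff]
  exact ⟨fun h3 => ⟨h1, h3⟩, fun h3 => h3.2⟩

/-- the map to the points -/
noncomputable def toPt {V : Type} {K : SimpleGraph V} {n : ℕ} {φ : V → Fin n → F}
    (hφ : RepOn K Set.univ n φ) (u : V) : Pt n :=
  Projectivization.mk F (φ u) (hφ.1 u (Set.mem_univ u))

theorem toPt_inj {V : Type} {K : SimpleGraph V} {n : ℕ} {φ : V → Fin n → F}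
    (hφ : RepOn K Set.univ n φ) : Function.Injective (toPt hφ) := by
  intro u v huv
  by_contra hne
  exact (mk_ne _ _).2 (hφ.2 u (Set.mem_univ u) v (Set.mem_univ v) hne).1 huv

theorem toPt_adj {V : Type} {K : SimpleGraph V} {n : ℕ} {φ : V → Fin n → F}
    (hφ : RepOn K Set.univ n φ) (u v : V) : (Gr n).Adj (toPt hφ u) (toPt hφ v) ↔ K.Adj u v := by
  by_cases huv : u = v
  · subst huv
    exact ⟨fun h1 => absurd rfl h1.ne, fun h1 => absurd rfl h1.ne⟩
  · have h1 := hφ.2 u (Set.mem_univ u) v (Set.mem_univ v) huv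
    unfold toPt
    rw [gr_adj, h1.2]
    exact ⟨fun h2 => h2.2, fun h2 => ⟨h1.1, h2⟩⟩

theorem RepOn.map {V : Type} {K : SimpleGraph V} {S : Set V} {n : ℕ} {φ : V → Fin n → F}
    (hφ : RepOn K S n φ) (T : (Fin n → F) ≃ₗ[F] (Fin n → F))
    (hT : ∀ v w, h (T v) (T w) = h v w) : RepOn K S n (fun v => T (φ v)) := by
  refine ⟨fun u hu h0 => hφ.1 u hu ?_, fun u hu v hv huv => ⟨fun c hc => ?_, ?_⟩⟩
  · have h1 : T (φ u) = 0 := h0
    exact T.injective (by rw [h1, map_zero])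
  · apply (hφ.2 u hu v hv huv).1 c
    apply T.injective
    rw [map_smul]
    exact hc
  · rw [hT]
    exact (hφ.2 u hu v hv huv).2

/-- a representation of the graph with one pair flipped gives a copy in the flipped host -/
theorem flip_embed {V : Type} {H K : SimpleGraph V} {u v : V}
    (h1 : ∀ a b, s(a, b) ≠ s(u, v) → (K.Adj a b ↔ H.Adj a b)) (h2 : K.Adj u v ↔ ¬ H.Adj u v)
    {n : ℕ} {φ : V → Fin n → F} (hφ : RepOn K Set.univ n φ) {G' : SimpleGraph (Pt n)} {p q : Pt n}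
    (hG' : ∀ f : Sym2 (Pt n), ((f ∈ (Gr n).edgeSet ↔ f ∈ G'.edgeSet) ↔ f ≠ s(p, q)))
    (hu : toPt hφ u = p) (hv : toPt hφ v = q) : Nonempty (H ↪g G') := by
  refine ⟨⟨⟨toPt hφ, toPt_inj hφ⟩, ?_⟩⟩
  intro a b
  change G'.Adj (toPt hφ a) (toPt hφ b) ↔ H.Adj a b
  have h3 := hG' s(toPt hφ a, toPt hφ b)
  rw [SimpleGraph.mem_edgeSet, SimpleGraph.mem_edgeSet, toPt_adj] at h3
  by_cases hab : s(a, b) = s(u, v)
  · have h4 : s(toPt hφ a, toPt hφ b) = s(p, q) := by
      rw [← hu, ← hv]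
      have := congrArg (Sym2.map (toPt hφ)) hab
      simpa using this
    have h5 : ¬ (K.Adj a b ↔ G'.Adj (toPt hφ a) (toPt hφ b)) := by
      rw [h3]
      exact fun h6 => h6 h4
    have h6 : K.Adj a b ↔ ¬ H.Adj a b := by
      rcases Sym2.eq_iff.1 hab with ⟨rfl, rfl⟩ | ⟨rfl, rfl⟩
      · exact h2
      · rw [K.adj_comm, H.adj_comm]
        exact h2
    tauto
  · have h4 : s(toPt hφ a, toPt hφ b) ≠ s(p, q) := by
      rw [← hu, ← hv]
      intro h5
      apply hab
      have h6 : Sym2.map (toPt hφ) s(a, b) = Sym2.map (toPt hφ) s(u, v) := by simpa using h5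
      exact Sym2.map.injective (toPt_inj hφ) h6
    have h5 := h3.2 h4
    rw [← h5, h1 a b hab]

end Pool.Agent.HPP
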