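import Pool.Agent.HPP.Defs

/-!
The trichotomy for a bridge (helper15, for MP_cdca5f_co)
-/

set_option autoImplicit false

namespace Pool.Agent.HPP

open Finset

/-- `v ↦ h v w` as a linear map -/
noncomputable def hlin {m : ℕ} (w : Fin m → F) : (Fin m → F) →ₗ[F] F where
  toFun v := h v w
  map_add' u v := h_add_left u v w
  map_smul' c v := h_smul_left c v w

theorem hlin_apply {m : ℕ} (w v : Fin m → F) : hlin w v = h v w := rfl

theorem h_sum_right {m : ℕ} {ι : Type*} (s : Finset ι) (v : Fin m → F) (f : ι → Fin m → F) :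
    h v (∑ i ∈ s, f i) = ∑ i ∈ s, h v (f i) := by
  classical
  induction s using Finset.induction_on with
  | empty => simp [h_zero_right]
  | insert a s ha ih => rw [Finset.sum_insert ha, Finset.sum_insert ha, h_add_right, ih]

theorem h_span_zero {m : ℕ} {T : Set (Fin m → F)} {w : Fin m → F} (hT : ∀ t ∈ T, h t w = 0)
    {x : Fin m → F} (hx : x ∈ Submodule.span F T) : h x w = 0 := by
  have h1 : Submodule.span F T ≤ LinearMap.ker (hlin w) := by
    rw [Submodule.span_le]
    intro t ht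
    exact hT t ht
  exact h1 hx

theorem tri {V : Type} [Finite V] {H : SimpleGraph V} {m : ℕ} {φ : V → Fin m → F}
    (hφ : RepOn H Set.univ m φ) {S : Set V} {p q : V} (hp : p ∈ S) (hq : q ∉ S) (hpq : H.Adj p q)
    (hS : ∀ x ∈ S, ∀ y, y ∉ S → H.Adj x y → x = p ∧ y = q) :
    (∃ v, h v v = 0 ∧ (∀ w, w ≠ q → h v (φ w) = 0) ∧ h v (φ q) ≠ 0) ∨
    (∃ v, h v v = 0 ∧ (∀ w, w ≠ p → h v (φ w) = 0) ∧ h v (φ p) ≠ 0) ∨
    (∃ v, h v v = 1 ∧ (∀ w, w ≠ p → w ≠ q → h v (φ w) = 0) ∧
      h (φ p) v * h v (φ q) = h (φ p) (φ q)) := by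
  classical
  have hz : ∀ x ∈ S, ∀ y, y ∉ S → ¬ (x = p ∧ y = q) → h (φ x) (φ y) = 0 := by
    intro x hx y hy hne
    by_contra h0
    have hxy : x ≠ y := fun he => hy (he ▸ hx)
    exact hne (hS x hx y hy (((hφ.2 x trivial y trivial hxy).2).1 h0))
  have hpq0 : h (φ p) (φ q) ≠ 0 := by
    have hne : p ≠ q := fun he => hq (he ▸ hp)
    exact ((hφ.2 p trivial q trivial hne).2).2 hpq
  -- elements of the span of `φ '' S`
  have hA : ∀ v ∈ Submodule.span F (φ '' S), ∀ y, y ∉ S → y ≠ q → h v (φ y) = 0 := by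
    intro v hv y hy hyq
    refine h_span_zero ?_ hv
    rintro _ ⟨x, hx, rfl⟩
    exact hz x hx y hy fun h1 => hyq h1.2
  have hA0 : ∀ v ∈ Submodule.span F (φ '' (S \ {p})), ∀ y, y ∉ S → h v (φ y) = 0 := by
    intro v hv y hy
    refine h_span_zero ?_ hv
    rintro _ ⟨x, hx, rfl⟩
    exact hz x hx.1 y hy fun h1 => hx.2 h1.1
  by_cases hex : ∃ v ∈ Submodule.span F (φ '' S), (∀ x ∈ S, x ≠ p → h v (φ x) = 0) ∧ h v (φ p) ≠ 0
  · right
    obtain ⟨v, hv, hv0, hvp⟩ := hex
    -- scale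
    set t := h v (φ p) with ht
    have hα1 : h (t⁻¹ • v) (φ p) = 1 := by rw [h_smul_left, ← ht, inv_mul_cancel₀ hvp]
    have hα0 : ∀ x ∈ S, x ≠ p → h (t⁻¹ • v) (φ x) = 0 := by
      intro x hx hxp
      rw [h_smul_left, hv0 x hx hxp, mul_zero]
    have hαA : t⁻¹ • v ∈ Submodule.span F (φ '' S) := Submodule.smul_mem _ _ hv
    set α := t⁻¹ • v
    have hins : φ '' S = insert (φ p) (φ '' (S \ {p})) := by
      rw [← Set.image_insert_eq]
      congr 1
      ext x
      by_cases hxp : x = p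
      · simp [hxp, hp]
      · simp [hxp]
    rw [hins] at hαA
    obtain ⟨c, a0, ha0, hα⟩ := Submodule.mem_span_insert.1 hαA
    have hpα : h (φ p) α = 1 := by
      rw [← h_sq α (φ p), hα1, one_pow]
    have ha0α : h a0 α = 0 := by
      refine h_span_zero ?_ ha0
      rintro _ ⟨x, hx, rfl⟩
      rw [← h_sq α (φ x), hα0 x hx.1 hx.2]
      exact zero_pow two_ne_zero
    have hnorm : h α α = c := by
      have h1 : h α α = h (c • φ p + a0) α := by rw [← hα]
      rw [h1, h_add_left, h_smul_left, hpα, ha0α, mul_one, add_zero]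
    have hαS : ∀ y, y ∉ S → y ≠ q → h α (φ y) = 0 := by
      intro y hy hyq
      exact hA α (by rw [hins]; exact hαA) y hy hyq
    rcases h_self α with h0 | h1
    · left
      have hc : c = 0 := hnorm ▸ h0
      have hα' : α = a0 := by rw [hα, hc, zero_smul, zero_add]
      refine ⟨α, h0, ?_, by rw [hα1]; exact one_ne_zero⟩
      intro w hw
      by_cases hwS : w ∈ S
      · exact hα0 w hwS hw
      · rw [hα']
        exact hA0 a0 ha0 w hwS
    · right
      have hc : c = 1 := hnorm ▸ h1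
      refine ⟨α, h1, ?_, ?_⟩
      · intro w hwp hwq
        by_cases hwS : w ∈ S
        · exact hα0 w hwS hwp
        · exact hαS w hwS hwq
      · rw [hpα, one_mul]
        have h2 : h α (φ q) = h (c • φ p + a0) (φ q) := by rw [← hα]
        rw [h2, h_add_left, h_smul_left, hA0 a0 ha0 q hq, hc, one_mul, add_zero]
  · left
    push Not at hex
    let ι := {x : V // x ∈ S ∧ x ≠ p}
    have : Finite ι := Subtype.finite
    have : Fintype ι := Fintype.ofFinite ι
    let A := Submodule.span F (φ '' S)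
    let L : ι → A →ₗ[F] F := fun i => (hlin (φ i.1)).comp A.subtype
    let K : A →ₗ[F] F := (hlin (φ p)).comp A.subtype
    have hle : (⨅ i, LinearMap.ker (L i)) ≤ LinearMap.ker K := by
      intro x hx
      rw [Submodule.mem_iInf] at hx
      rw [LinearMap.mem_ker]
      exact hex x.1 x.2 fun y hy hyp => by
        have := hx ⟨y, hy, hyp⟩
        rwa [LinearMap.mem_ker] at this
    have hK := mem_span_of_iInf_ker_le_ker hle
    obtain ⟨c, hc⟩ := (Submodule.mem_span_range_iff_exists_fun F).1 hK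
    set a0 : Fin m → F := ∑ i : ι, (c i) ^ 2 • φ i.1 with ha0def
    have ha0 : ∀ v ∈ A, h v a0 = h v (φ p) := by
      intro v hv
      have h1 : (∑ i, c i • L i) ⟨v, hv⟩ = K ⟨v, hv⟩ := by rw [hc]
      rw [LinearMap.sum_apply] at h1
      rw [ha0def, h_sum_right]
      calc ∑ i : ι, h v ((c i) ^ 2 • φ i.1) = ∑ i : ι, (c i • L i) ⟨v, hv⟩ := by
            refine Finset.sum_congr rfl fun i _ => ?_
            rw [h_smul_right, sq_sq']
            rfl
        _ = h v (φ p) := h1
    have ha0A0 : a0 ∈ Submodule.span F (φ '' (S \ {p})) := by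
      refine Submodule.sum_mem _ fun i _ => Submodule.smul_mem _ _ (Submodule.subset_span ?_)
      exact ⟨i.1, ⟨i.2.1, i.2.2⟩, rfl⟩
    have ha0A : a0 ∈ A := Submodule.span_mono (Set.image_mono Set.sdiff_subset) ha0A0
    have hκA : φ p + a0 ∈ A := A.add_mem (Submodule.subset_span ⟨p, hp, rfl⟩) ha0A
    have hκ : ∀ v ∈ A, h v (φ p + a0) = 0 := by
      intro v hv
      rw [h_add_right, ha0 v hv]
      exact CharTwo.add_self_eq_zero _
    refine ⟨φ p + a0, hκ _ hκA, ?_, ?_⟩
    · intro w hw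
      by_cases hwS : w ∈ S
      · rw [h_eq_zero_comm]
        exact hκ _ (Submodule.subset_span ⟨w, hwS, rfl⟩)
      · exact hA _ hκA w hwS hw
    · rw [h_add_left, hA0 a0 ha0A0 q hq, add_zero]
      exact hpq0

end Pool.Agent.HPP
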